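import Pool.Agent.H66.DC.HalfPlane

/-!
# The basis polynomials

Identities relating the recursion of `HalfPlane.lean` with the polynomials
`(x + ⋯ + x ^ (r - j - 1)) h_j`, where `h_j` is the dual Chow polynomial of a Boolean matroid.
-/

namespace DualChow

open Finset

variable {R : Type*} [CommRing R]

/-- `x + x ^ 2 + ⋯ + x ^ (d - 1)`. -/
def wq (x : R) (d : ℕ) : R := ∑ i ∈ Ico 1 d, x ^ i

@[simp] lemma wq_zero (x : R) : wq x 0 = 0 := by simp [wq]
@[simp] lemma wq_one (x : R) : wq x 1 = 0 := by simp [wq]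
@[simp] lemma wq_two (x : R) : wq x 2 = x := by simp [wq]

lemma wq_succ (x : R) {d : ℕ} (hd : 1 ≤ d) : wq x (d + 1) = wq x d + x ^ d := by
  unfold wq; rw [sum_Ico_succ_top hd]

lemma wq_three_term (x : R) {d : ℕ} (hd : 1 ≤ d) :
    wq x (d + 2) = (1 + x) * wq x (d + 1) - x * wq x d := by
  rw [wq_succ x (by omega : 1 ≤ d + 1), wq_succ x hd, pow_succ]; ring

/-- Values at `x` of the dual Chow polynomials of Boolean matroids. -/
def hB (x : R) : ℕ → R
  | k => 1 + ∑ j : Fin k, (k.choose j : R) * wq x (k - j) * hB x j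
termination_by k => k
decreasing_by exact j.2

lemma hB_eq (x : R) (k : ℕ) :
    hB x k = 1 + ∑ j ∈ range k, (k.choose j : R) * wq x (k - j) * hB x j := by
  rw [hB, sum_range]

@[simp] lemma hB_zero (x : R) : hB x 0 = 1 := by
  rw [hB_eq]; simp

/-- The basis polynomials. -/
def bb (x : R) (m j : ℕ) : R := (if j = 0 then 1 else 0) + wq x (m - j) * hB x j

lemma bb_three_term (x : R) {K j : ℕ} (hj : j ≤ K) :
    bb x (K + 3) j = (1 + x) * bb x (K + 2) j - x * bb x (K + 1) j := by
  unfold bb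
  have h1 : K + 3 - j = (K + 1 - j) + 2 := by omega
  have h2 : K + 2 - j = (K + 1 - j) + 1 := by omega
  rw [h1, h2, wq_three_term x (by omega)]
  split_ifs <;> ring

/-- Hockey stick. -/
lemma hockey (a n : ℕ) : ∑ s ∈ range (n + 1), (a + s).choose s = (a + n + 1).choose n := by
  induction n with
  | zero => simp
  | succ n ih =>
    rw [sum_range_succ, ih, Nat.choose_succ_succ (a + (n + 1)) n]
    congr 1

lemma hockey' {K i j : ℕ} (hij : i ≤ j) (hj : j ≤ K) :
    ∑ l ∈ Ico i (j + 1), (K - l).choose (j - l) = (K + 1 - i).choose (j - i) := by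
  rw [sum_Ico_eq_sum_range]
  have h1 : j + 1 - i = (j - i) + 1 := by omega
  rw [h1, ← sum_range_reflect]
  have h2 : ∀ s ∈ range (j - i + 1),
      (K - (i + (j - i + 1 - 1 - s))).choose (j - (i + (j - i + 1 - 1 - s)))
        = ((K - j) + s).choose s := by
    intro s hs
    have := mem_range.1 hs
    congr 1 <;> omega
  rw [sum_congr rfl h2, hockey]
  congr 1
  omega

lemma sum_hockey {K i : ℕ} (g : ℕ → R) :
    ∑ l ∈ Ico i (K + 1), ∑ j ∈ Ico l (K + 1), ((K - l).choose (j - l) : R) * g j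
      = ∑ j ∈ Ico i (K + 1), ((K + 1 - i).choose (j - i) : R) * g j := by
  rw [sum_Ico_Ico_comm]
  apply sum_congr rfl
  intro j hj
  have h := mem_Ico.1 hj
  rw [← sum_mul, ← hockey' h.1 (by omega : j ≤ K)]
  push_cast
  rfl

/-- The rows of the first array. -/
def PP (x : R) (K i : ℕ) : R := ∑ j ∈ Ico i (K + 1), ((K - i).choose (j - i) : R) * bb x (K + 2) j

/-- The rows of the second array. -/
def QQ (x : R) (K i : ℕ) : R := ∑ j ∈ Ico i (K + 1), ((K - i).choose (j - i) : R) * bb x (K + 1) j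

lemma QQ_succ (x : R) {K i : ℕ} (hi : i ≤ K + 1) :
    QQ x (K + 1) i = ∑ l ∈ Ico i (K + 1), PP x K l := by
  unfold PP
  rw [sum_hockey]
  unfold QQ
  rw [sum_Ico_succ_top hi]
  have h : bb x (K + 1 + 1) (K + 1) = 0 := by
    unfold bb
    rw [if_neg (by omega), show K + 1 + 1 - (K + 1) = 1 by omega]
    simp
  rw [h, mul_zero, add_zero]

lemma hB_succ (x : R) (K : ℕ) : hB x (K + 1) = ∑ l ∈ Ico 0 (K + 1), QQ x K l := by
  unfold QQ
  rw [sum_hockey, hB_eq, ← range_eq_Ico]
  unfold bb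
  rw [sum_congr rfl (fun j _ => mul_add _ _ _), sum_add_distrib]
  congr 1
  · rw [sum_eq_single 0]
    · simp
    · intro j _ hj; simp [hj]
    · intro h; simp at h
  · exact sum_congr rfl fun j _ => by rw [Nat.sub_zero, Nat.sub_zero]; ring

lemma PP_succ (x : R) {K i : ℕ} (hi : i ≤ K + 1) :
    PP x (K + 1) i = (1 + x) * QQ x (K + 1) i + x * ∑ l ∈ range i, QQ x K l := by
  have h1 : PP x (K + 1) i =
      ∑ j ∈ Ico i (K + 1), ((K + 1 - i).choose (j - i) : R) * bb x (K + 3) j
        + x * hB x (K + 1) := by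
    unfold PP
    rw [sum_Ico_succ_top hi]
    congr 1
    unfold bb
    rw [if_neg (by omega), show K + 1 + 2 - (K + 1) = 2 by omega]
    simp
  have h2 : QQ x (K + 1) i =
      ∑ j ∈ Ico i (K + 1), ((K + 1 - i).choose (j - i) : R) * bb x (K + 2) j := by
    rw [QQ_succ x hi]; unfold PP; rw [sum_hockey]
  have h3 : ∑ l ∈ Ico i (K + 1), QQ x K l =
      ∑ j ∈ Ico i (K + 1), ((K + 1 - i).choose (j - i) : R) * bb x (K + 1) j := by
    unfold QQ; rw [sum_hockey]
  have h4 : ∑ j ∈ Ico i (K + 1), ((K + 1 - i).choose (j - i) : R) * bb x (K + 3) j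
      = (1 + x) * ∑ j ∈ Ico i (K + 1), ((K + 1 - i).choose (j - i) : R) * bb x (K + 2) j
        - x * ∑ j ∈ Ico i (K + 1), ((K + 1 - i).choose (j - i) : R) * bb x (K + 1) j := by
    rw [mul_sum, mul_sum, ← sum_sub_distrib]
    apply sum_congr rfl
    intro j hj
    rw [bb_three_term x (by have := mem_Ico.1 hj; omega : j ≤ K)]
    ring
  have h5 : ∑ l ∈ Ico 0 (K + 1), QQ x K l
      = ∑ l ∈ range i, QQ x K l + ∑ l ∈ Ico i (K + 1), QQ x K l := by
    rw [range_eq_Ico, sum_Ico_consecutive _ (Nat.zero_le _) hi]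
  rw [h1, h4, ← h2, ← h3, hB_succ, h5]
  ring

/-- The arrays `PP`, `QQ` in terms of the arrays of `HalfPlane.lean`. -/
lemma PP_QQ_eq {x t : R} (ht : t * (1 + x) ^ 2 = x) (K : ℕ) :
    (∀ i ≤ K, PP x K i = (1 + x) ^ (K + 1) * (VD t K).1 i) ∧
      (∀ i ≤ K, QQ x K i = (1 + x) ^ K * (VD t K).2 i) := by
  induction K with
  | zero =>
    refine ⟨?_, ?_⟩
    · intro i hi
      obtain rfl : i = 0 := by omega
      simp [PP, bb, VD]
    · intro i hi
      obtain rfl : i = 0 := by omega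
      simp [QQ, bb, VD]
  | succ K ih =>
    obtain ⟨h1, h2⟩ := ih
    have h3 : ∀ i ≤ K + 1, QQ x (K + 1) i = (1 + x) ^ (K + 1) * (VD t (K + 1)).2 i := by
      intro i hi
      rw [QQ_succ x hi]
      simp only [VD]
      rw [mul_sum]
      exact sum_congr rfl fun l hl => h1 l (by have := mem_Ico.1 hl; omega)
    refine ⟨?_, h3⟩
    intro i hi
    rw [PP_succ x hi, h3 i hi]
    simp only [VD]
    have h4 : ∑ l ∈ range i, QQ x K l = (1 + x) ^ K * ∑ l ∈ range i, (VD t K).2 l := by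
      rw [mul_sum]
      exact sum_congr rfl fun l hl => h2 l (by have := mem_range.1 hl; omega)
    rw [h4]
    conv_lhs => rw [← ht]
    conv_rhs => rw [← ht]
    have h5 : (1 + t * (1 + x) ^ 2) = 1 + x := by rw [ht]
    simp only [h5]
    ring

/-- The binomial identity behind the change of basis. -/
lemma choose_identity {N K j : ℕ} (hN : K + 1 ≤ N) (hj : j ≤ K) :
    N.choose j * (N - j - 1).choose (K - j)
      = ∑ i ∈ range (j + 1), (N - 1 - i).choose (K - i) * (K - i).choose (j - i) := by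
  have h1 : ∀ i ∈ range (j + 1), (N - 1 - i).choose (K - i) * (K - i).choose (j - i)
      = (N - 1 - i).choose (j - i) * (N - j - 1).choose (K - j) := by
    intro i hi
    have := mem_range.1 hi
    rw [Nat.choose_mul (by omega : j - i ≤ K - i)]
    congr 2 <;> omega
  rw [sum_congr rfl h1, ← sum_mul]
  congr 1
  have h2 := hockey' (K := N - 1) (i := 0) (j := j) (Nat.zero_le _) (by omega)
  rw [← range_eq_Ico] at h2
  rw [h2]
  congr 1
  omega

lemma change_basis (x : R) (K : ℕ) (c : ℕ → R) :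
    ∑ j ∈ range (K + 1), (∑ i ∈ range (j + 1), c i * ((K - i).choose (j - i) : R)) * bb x (K + 2) j
      = ∑ i ∈ range (K + 1), c i * PP x K i := by
  unfold PP
  simp only [sum_mul, mul_sum]
  rw [range_eq_Ico, sum_Ico_Ico_comm]
  apply sum_congr rfl
  intro j _
  rw [range_eq_Ico]
  exact sum_congr rfl fun i _ => by ring

/-- Elementary fact: the map `x ↦ x / (1 + x)^2`. -/
lemma real_of_t {x t : ℂ} (ht : t * (1 + x) ^ 2 = x) (him : t.im = 0) (hre : t.re ≤ 0) :
    x.im = 0 ∧ x.re ≤ 0 := by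
  have h1 := congrArg Complex.re ht
  have h2 := congrArg Complex.im ht
  simp only [sq, Complex.mul_re, Complex.mul_im, Complex.add_re, Complex.add_im, Complex.one_re,
    Complex.one_im, him] at h1 h2
  ring_nf at h1 h2
  by_cases hb : x.im = 0
  · refine ⟨hb, ?_⟩
    rw [hb] at h1
    have h3 : x.re = t.re * (1 + x.re) ^ 2 := by
      linear_combination -h1
    rw [h3]
    exact mul_nonpos_of_nonpos_of_nonneg hre (sq_nonneg _)
  · exfalso
    -- `2 t (1 + a) = 1`
    have h3 : x.im * (2 * t.re * (1 + x.re) - 1) = 0 := by linear_combination h2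
    have h4 : 2 * t.re * (1 + x.re) = 1 := by
      rcases mul_eq_zero.1 h3 with h | h
      · exact absurd h hb
      · linarith
    have h5 : x.re = t.re * (1 + x.re) ^ 2 - t.re * x.im ^ 2 := by
      linear_combination -h1
    have h6 : 2 * (t.re * (1 + x.re) ^ 2) = 1 + x.re := by
      have : 2 * (t.re * (1 + x.re) ^ 2) = (2 * t.re * (1 + x.re)) * (1 + x.re) := by ring
      rw [this, h4, one_mul]
    have h7 : x.re = 1 - 2 * t.re * x.im ^ 2 := by linarith
    have h8 : 0 ≤ -t.re * x.im ^ 2 := mul_nonneg (by linarith) (sq_nonneg _)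
    have h9 : 1 ≤ x.re := by nlinarith
    have h10 : t.re * (1 + x.re) ≤ 0 := mul_nonpos_of_nonpos_of_nonneg hre (by linarith)
    linarith

/-- Real-rootedness of nonnegative combinations. -/
theorem root_real (K : ℕ) (c : ℕ → ℝ) (hc : ∀ i ≤ K, 0 ≤ c i) (hK : 0 < c K) (x : ℂ)
    (h : ∑ j ∈ range (K + 1),
      (∑ i ∈ range (j + 1), (c i : ℂ) * ((K - i).choose (j - i) : ℂ)) * bb x (K + 2) j = 0) :
    x.im = 0 ∧ x.re ≤ 0 := by
  rw [change_basis] at h
  by_cases hx : 1 + x = 0
  · have : x = -1 := by linear_combination hx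
    rw [this]; simp
  · have ht : (x / (1 + x) ^ 2) * (1 + x) ^ 2 = x := by
      field_simp
    by_contra hcon
    have hz : ¬ ((x / (1 + x) ^ 2).im = 0 ∧ (x / (1 + x) ^ 2).re ≤ 0) := fun h1 =>
      hcon (real_of_t ht h1.1 h1.2)
    have h1 := comb_ne_zero hz K c hc hK
    apply h1
    have h2 : ∑ i ∈ range (K + 1), (c i : ℂ) * PP x K i
        = (1 + x) ^ (K + 1) * ∑ i ∈ range (K + 1), (c i : ℂ) * (VD (x / (1 + x) ^ 2) K).1 i := by
      rw [mul_sum]
      apply sum_congr rfl
      intro i hi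
      rw [(PP_QQ_eq ht K).1 i (by have := mem_range.1 hi; omega)]
      ring
    rw [h2] at h
    rcases mul_eq_zero.1 h with h3 | h3
    · exact absurd h3 (pow_ne_zero _ hx)
    · exact h3

end DualChow
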