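import Mathlib

/-!
# Sums over chains in a finite poset
-/

namespace DualChow

open Finset

variable {P R : Type*} [PartialOrder P] [Fintype P] [CommRing R]

open Classical in
/-- Sum over the chains `c 0 < ⋯ < c m = G`. -/
noncomputable def chainSum (u : P → R) (w : P → P → R) (G : P) (m : ℕ) : R :=
  ∑ c : Fin (m + 1) → P with StrictMono c ∧ c (Fin.last m) = G,
    u (c 0) * ∏ i : Fin m, w (c i.castSucc) (c i.succ)

lemma chainSum_zero (u : P → R) (w : P → P → R) (G : P) : chainSum u w G 0 = u G := by
  classical
  have : Subsingleton (Fin (0 + 1)) := inferInstanceAs (Subsingleton (Fin 1))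
  unfold chainSum
  rw [sum_eq_single (fun _ => G)]
  · simp
  · intro c hc hne
    exfalso
    apply hne
    have h := (mem_filter.1 hc).2.2
    funext i
    rw [← h]
    congr 1
    exact Subsingleton.elim _ _
  · intro h
    exfalso
    apply h
    rw [mem_filter]
    exact ⟨mem_univ _, Subsingleton.strictMono _, rfl⟩

open Classical in
lemma chainSum_succ (u : P → R) (w : P → P → R) (G : P) (m : ℕ) :
    chainSum u w G (m + 1) = ∑ F : P with F < G, chainSum u w F m * w F G := by
  unfold chainSum
  rw [sum_filter]
  rw [← (Fin.snocEquiv (fun _ : Fin (m + 2) => P)).sum_comp]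
  rw [Fintype.sum_prod_type, sum_eq_single G]
  · -- the main term
    refine (Fintype.sum_congr _ (fun c : Fin (m + 1) → P =>
        if StrictMono c ∧ c (Fin.last m) < G then
            (u (c 0) * ∏ i : Fin m, w (c i.castSucc) (c i.succ)) * w (c (Fin.last m)) G else 0)
        (fun c => ?_)).trans ?_
    · have e1 : ∀ j : Fin (m + 1),
          (Fin.snocEquiv (fun _ : Fin (m + 2) => P)) (G, c) j.castSucc = c j := by
        intro j
        exact Fin.snoc_castSucc (α := fun _ => P) G c j
      have e2 : (Fin.snocEquiv (fun _ : Fin (m + 2) => P)) (G, c) (Fin.last (m + 1)) = G :=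
        Fin.snoc_last (α := fun _ => P) G c
      have e3 : (Fin.snocEquiv (fun _ : Fin (m + 2) => P)) (G, c) 0 = c 0 := e1 0
      have e4 : ∀ j : Fin m,
          (Fin.snocEquiv (fun _ : Fin (m + 2) => P)) (G, c) (j.castSucc).succ = c j.succ := by
        intro j
        rw [← Fin.castSucc_succ]
        exact e1 _
      have e5 : (Fin.snocEquiv (fun _ : Fin (m + 2) => P)) (G, c) (Fin.last m).succ = G := by
        rw [Fin.succ_last]; exact e2
      have e6 : StrictMono ((Fin.snocEquiv (fun _ : Fin (m + 2) => P)) (G, c)) ↔
          StrictMono c ∧ c (Fin.last m) < G := by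
        rw [Fin.strictMono_iff_lt_succ, Fin.strictMono_iff_lt_succ, Fin.forall_fin_succ']
        simp only [e1, e4, e5]
      by_cases h : StrictMono c ∧ c (Fin.last m) < G
      · rw [if_pos h, if_pos ⟨e6.2 h, e2⟩, Fin.prod_univ_castSucc]
        simp only [e1, e3, e4, e5]
        ring
      · rw [if_neg h, if_neg (fun h' => h (e6.1 h'.1))]
    -- right-hand side
    have h2 : ∀ F : P, (∑ c : Fin (m + 1) → P with StrictMono c ∧ c (Fin.last m) = F,
          u (c 0) * ∏ i : Fin m, w (c i.castSucc) (c i.succ)) * w F G
        = ∑ c : Fin (m + 1) → P, if StrictMono c ∧ c (Fin.last m) = F then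
            (u (c 0) * ∏ i : Fin m, w (c i.castSucc) (c i.succ)) * w F G else 0 := by
      intro F
      rw [sum_mul, sum_filter]
    simp only [h2]
    rw [sum_comm]
    apply Fintype.sum_congr
    intro c
    by_cases hc : StrictMono c
    · simp only [hc, true_and]
      rw [sum_filter]
      refine Eq.trans ?_ (Fintype.sum_congr (fun F : P =>
          if c (Fin.last m) = F then (if c (Fin.last m) < G then
            (u (c 0) * ∏ i : Fin m, w (c i.castSucc) (c i.succ)) * w (c (Fin.last m)) G else 0)
            else 0) _ (fun F => ?_))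
      · rw [sum_ite_eq]
        simp
      · by_cases hF : c (Fin.last m) = F
        · subst hF; simp
        · simp [hF]
    · simp [hc]
  · intro F _ hF
    apply sum_eq_zero
    intro c _
    rw [if_neg]
    rintro ⟨-, h⟩
    apply hF
    rw [← h]
    exact (Fin.snoc_last (α := fun _ => P) F c).symm
  · intro h; exact absurd (mem_univ _) h

lemma chainSum_eq_zero (u : P → R) (w : P → P → R) (G : P) {m : ℕ} (hm : Fintype.card P ≤ m) :
    chainSum u w G m = 0 := by
  classical
  unfold chainSum
  apply sum_eq_zero
  intro c hc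
  exfalso
  have h1 := (mem_filter.1 hc).2.1
  have h2 := Fintype.card_le_of_injective c h1.injective
  rw [Fintype.card_fin] at h2
  omega

lemma finsum_chainSum (u : P → R) (w : P → P → R) (G : P) {N : ℕ} (hN : Fintype.card P ≤ N) :
    ∑ᶠ m : ℕ, chainSum u w G m = ∑ m ∈ range N, chainSum u w G m := by
  apply finsum_eq_sum_of_support_subset
  intro m hm
  rw [Function.mem_support] at hm
  rw [coe_range, Set.mem_Iio]
  by_contra h
  exact hm (chainSum_eq_zero u w G (by omega))

open Classical in
/-- The recursion for the total chain sum. -/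
lemma chain_rec (u : P → R) (w : P → P → R) (G : P) :
    ∑ᶠ m : ℕ, chainSum u w G m
      = u G + ∑ F : P with F < G, (∑ᶠ m : ℕ, chainSum u w F m) * w F G := by
  rw [finsum_chainSum u w G (Nat.le_succ (Fintype.card P)), sum_range_succ', chainSum_zero,
    add_comm]
  congr 1
  simp only [chainSum_succ, finsum_chainSum u w _ le_rfl]
  rw [sum_comm]
  simp only [sum_mul]

end DualChow
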