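import Pool.Agent.H66.DC.Defs

/-!
# Counting flats of paving matroids
-/

namespace DualChow

open Finset

/-! ### Boolean intervals -/

section Boolean

variable {α R : Type*} [DecidableEq α] [CommRing R]

lemma sum_Icc_card {A B : Finset α} (h : A ⊆ B) (φ : ℕ → R) :
    ∑ Y ∈ Icc A B, φ #Y = ∑ s ∈ range (#B - #A + 1), ((#B - #A).choose s : R) * φ (#A + s) := by
  rw [Icc_eq_image_powerset h, sum_image]
  · have h1 : ∀ Y ∈ (B \ A).powerset, φ #(A ∪ Y) = (fun s => φ (#A + s)) #Y := by
      intro Y hY
      have h2 : Disjoint A Y := by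
        rw [Finset.disjoint_left]
        intro a ha haY
        exact (mem_sdiff.1 (mem_powerset.1 hY haY)).2 ha
      simp only
      rw [card_union_of_disjoint h2]
    rw [sum_congr rfl h1]
    have h2 := sum_powerset_apply_card (fun s => φ (#A + s)) (x := B \ A)
    rw [card_sdiff_of_subset h] at h2
    refine h2.trans ?_
    exact sum_congr rfl fun s _ => by rw [nsmul_eq_mul]
  · intro Y hY Z hZ hYZ
    have h3 : ∀ Y ∈ (B \ A).powerset, (A ∪ Y) \ A = Y := by
      intro Y hY
      rw [union_sdiff_left]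
      rw [Finset.sdiff_eq_self_iff_disjoint]
      rw [Finset.disjoint_left]
      intro a haY ha
      exact (mem_sdiff.1 (mem_powerset.1 hY haY)).2 ha
    have h4 := h3 Y hY
    have h5 := h3 Z hZ
    simp only at hYZ
    rw [← h4, ← h5, hYZ]

/-- Sum of a function of the cardinality over the small sets of an interval. -/
lemma sum_Icc_card_le {A B : Finset α} (h : A ⊆ B) (K : ℕ) (hA : #A ≤ K) (φ : ℕ → R) :
    ∑ Y ∈ Icc A B with #Y ≤ K, φ #Y
      = ∑ s ∈ range (K + 1 - #A), ((#B - #A).choose s : R) * φ (#A + s) := by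
  rw [sum_filter]
  rw [sum_Icc_card h (fun i => if i ≤ K then φ i else 0)]
  have h1 : ∀ n m : ℕ, (∀ s, m ≤ s → s < n → (((#B - #A).choose s : R) *
      (if #A + s ≤ K then φ (#A + s) else 0) = 0)) → m ≤ n →
      ∑ s ∈ range n, ((#B - #A).choose s : R) * (if #A + s ≤ K then φ (#A + s) else 0)
      = ∑ s ∈ range m, ((#B - #A).choose s : R) * (if #A + s ≤ K then φ (#A + s) else 0) := by
    intro n m h2 hmn
    symm
    apply sum_subset (range_mono hmn)
    intro s hs hs'
    exact h2 s (by rw [mem_range, not_lt] at hs'; exact hs') (mem_range.1 hs)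
  have h3 : ∑ s ∈ range (K + 1 - #A), ((#B - #A).choose s : R) * φ (#A + s)
      = ∑ s ∈ range (K + 1 - #A), ((#B - #A).choose s : R) *
          (if #A + s ≤ K then φ (#A + s) else 0) := by
    apply sum_congr rfl
    intro s hs
    rw [if_pos (by have := mem_range.1 hs; omega)]
  rw [h3]
  rcases le_total (#B - #A + 1) (K + 1 - #A) with h4 | h4
  · symm
    apply h1 _ _ _ h4
    intro s hs _
    rw [Nat.choose_eq_zero_of_lt (by omega)]
    simp
  · apply h1 _ _ _ h4
    intro s hs _
    rw [if_neg (by omega), mul_zero]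

/-- Number of `k`-sets of an interval. -/
lemma card_Icc_card_eq {A B : Finset α} (h : A ⊆ B) (k : ℕ) (hA : #A ≤ k) :
    #{Y ∈ Icc A B | #Y = k} = (#B - #A).choose (k - #A) := by
  have h1 := sum_Icc_card (R := ℤ) h (fun i => if i = k then 1 else 0)
  rw [← sum_filter, ← card_eq_sum_ones_int] at h1
  have h2 : ∑ s ∈ range (#B - #A + 1), ((#B - #A).choose s : ℤ) * (if #A + s = k then 1 else 0)
      = ((#B - #A).choose (k - #A) : ℤ) := by
    rcases Nat.lt_or_ge (#B - #A) (k - #A) with h3 | h3
    · rw [Nat.choose_eq_zero_of_lt h3]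
      apply sum_eq_zero
      intro s hs
      rw [if_neg (by have := mem_range.1 hs; omega), mul_zero]
    · rw [sum_eq_single (k - #A)]
      · rw [if_pos (by omega), mul_one]
      · intro s _ hne
        rw [if_neg (by omega), mul_zero]
      · intro h4
        exact absurd (mem_range.2 (by omega)) h4
  rw [h2] at h1
  exact_mod_cast h1
where
  card_eq_sum_ones_int {β : Type _} (s : Finset β) : (#s : ℤ) = ∑ _x ∈ s, 1 := by simp

end Boolean

end DualChow
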