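import Mathlib

/-!
# The dual Chow polynomial of a matroid
-/

namespace DualChow

open Finset Polynomial

/-- The flats of a matroid, ordered by inclusion. -/
abbrev Flat {α : Type*} (M : Matroid α) : Type _ := {F : Set α // M.IsFlat F}

section

variable {α : Type*} (M : Matroid α)

instance [M.Finite] : Finite (Flat M) :=
  (M.ground_finite.finite_subsets.subset fun _ hF => hF.subset_ground).to_subtype

noncomputable instance [M.Finite] : Fintype (Flat M) := Fintype.ofFinite _

noncomputable instance : DecidableEq (Flat M) := Classical.decEq _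

/-- The lattice of flats of a finite matroid is locally finite. -/
noncomputable instance [M.Finite] : LocallyFiniteOrder (Flat M) := by
  classical exact Fintype.toLocallyFiniteOrder

/-- The top element of the lattice of flats: the ground set. -/
instance : OrderTop (Flat M) where
  top := ⟨M.E, M.ground_isFlat⟩
  le_top F := F.2.subset_ground

/-- The bottom element of the lattice of flats: the closure of the empty set. -/
instance : OrderBot (Flat M) where
  bot := ⟨M.closure ∅, M.isFlat_closure ∅⟩
  bot_le F := by
    change M.closure ∅ ⊆ F.1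
    rw [← F.2.closure]
    exact M.closure_subset_closure (Set.empty_subset _)

/-- The rank of a flat. -/
noncomputable def rk (F : Flat M) : ℕ := (M.eRk F.1).toNat

end

/-- The polynomial `(x ^ d - x) / (x - 1) = x + x ^ 2 + ⋯ + x ^ (d - 1)`. -/
noncomputable def gap (d : ℕ) : ℤ[X] := ∑ i ∈ Ico 1 d, X ^ i

open Classical in
/-- The dual Chow polynomial of a finite matroid `M` of rank `r`:
`(-1) ^ r` times the sum over all chains `c 0 < c 1 < ⋯ < c m = E` of flats (`m ≥ 0`) of
`μ(⊥, c 0) * ∏ μ(c (i-1), c i) * (x + x ^ 2 + ⋯ + x ^ (ρ - 1))`, `ρ = rk (c i) - rk (c (i-1))`. -/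
noncomputable def dualChow {α : Type*} (M : Matroid α) [M.Finite] : ℤ[X] :=
  (-1) ^ M.eRank.toNat *
    ∑ᶠ m : ℕ, ∑ c : Fin (m + 1) → Flat M with StrictMono c ∧ c (Fin.last m) = ⊤,
      C (IncidenceAlgebra.mu ℤ ⊥ (c 0)) *
        ∏ i : Fin m, C (IncidenceAlgebra.mu ℤ (c i.castSucc) (c i.succ)) *
          gap (rk M (c i.succ) - rk M (c i.castSucc))

/-- A matroid is paving if every circuit has at least as many elements as the rank. -/
def IsPaving {α : Type*} (M : Matroid α) : Prop := ∀ C, M.IsCircuit C → M.eRank ≤ C.encard

end DualChow
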