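import Mathlib

/-!
# A half plane argument

Two triangular arrays `v, d` of complex numbers are defined by a Pascal type recursion depending
on a parameter `z`.  We show that if `z` is not a nonpositive real number, then all the entries
`v K i`, `i ≤ K`, of a row lie in an open half plane.
-/

namespace DualChow

open Finset

/-- The cross product of two complex numbers (imaginary part of `conj a * b`). -/
def cr (a b : ℂ) : ℝ := a.re * b.im - a.im * b.re

lemma cr_self (a : ℂ) : cr a a = 0 := by unfold cr; ring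

lemma cr_neg_swap (a b : ℂ) : cr a b = - cr b a := by unfold cr; ring

lemma cr_add_left (a b c : ℂ) : cr (a + b) c = cr a c + cr b c := by
  unfold cr; simp only [Complex.add_re, Complex.add_im]; ring

lemma cr_add_right (a b c : ℂ) : cr a (b + c) = cr a b + cr a c := by
  unfold cr; simp only [Complex.add_re, Complex.add_im]; ring

lemma cr_zero_left (a : ℂ) : cr 0 a = 0 := by simp [cr]

lemma cr_zero_right (a : ℂ) : cr a 0 = 0 := by simp [cr]

lemma cr_sum_left {ι : Type*} (s : Finset ι) (f : ι → ℂ) (b : ℂ) :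
    cr (∑ i ∈ s, f i) b = ∑ i ∈ s, cr (f i) b := by
  classical
  induction s using Finset.induction_on with
  | empty => simp [cr_zero_left]
  | insert a s ha ih => rw [sum_insert ha, sum_insert ha, cr_add_left, ih]

lemma cr_sum_right {ι : Type*} (s : Finset ι) (f : ι → ℂ) (b : ℂ) :
    cr b (∑ i ∈ s, f i) = ∑ i ∈ s, cr b (f i) := by
  classical
  induction s using Finset.induction_on with
  | empty => simp [cr_zero_right]
  | insert a s ha ih => rw [sum_insert ha, sum_insert ha, cr_add_right, ih]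

lemma cr_mul_mul (z a b : ℂ) : cr (z * a) (z * b) = (z.re ^ 2 + z.im ^ 2) * cr a b := by
  unfold cr; simp only [Complex.mul_re, Complex.mul_im]; ring

lemma cr_mul_self (z a : ℂ) : cr a (z * a) = (a.re ^ 2 + a.im ^ 2) * z.im := by
  unfold cr; simp only [Complex.mul_re, Complex.mul_im]; ring

lemma sq_add_sq_pos {a : ℂ} (ha : a ≠ 0) : 0 < a.re ^ 2 + a.im ^ 2 := by
  have h := Complex.normSq_pos.2 ha
  rw [Complex.normSq_apply] at h
  nlinarith

/-- `w` lies in the cone spanned by `p` and `z p`. -/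
def Cone (z p w : ℂ) : Prop := 0 ≤ cr p w ∧ 0 ≤ cr w (z * p)

lemma Cone.add {z p a b : ℂ} (ha : Cone z p a) (hb : Cone z p b) : Cone z p (a + b) := by
  refine ⟨?_, ?_⟩
  · rw [cr_add_right]; exact add_nonneg ha.1 hb.1
  · rw [cr_add_left]; exact add_nonneg ha.2 hb.2

lemma Cone.sum {ι : Type*} {z p : ℂ} {s : Finset ι} {f : ι → ℂ} (h : ∀ i ∈ s, Cone z p (f i)) :
    Cone z p (∑ i ∈ s, f i) := by
  refine ⟨?_, ?_⟩
  · rw [cr_sum_right]; exact sum_nonneg fun i hi => (h i hi).1
  · rw [cr_sum_left]; exact sum_nonneg fun i hi => (h i hi).2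

/-- The functional which is positive on the cone. -/
def fn (z p w : ℂ) : ℝ := cr p w + cr w (z * p)

lemma fn_nonneg {z p w : ℂ} (h : Cone z p w) : 0 ≤ fn z p w := add_nonneg h.1 h.2

lemma fn_add (z p a b : ℂ) : fn z p (a + b) = fn z p a + fn z p b := by
  unfold fn; rw [cr_add_left, cr_add_right]; ring

lemma fn_sum {ι : Type*} (z p : ℂ) (s : Finset ι) (f : ι → ℂ) :
    fn z p (∑ i ∈ s, f i) = ∑ i ∈ s, fn z p (f i) := by
  unfold fn; rw [cr_sum_left, cr_sum_right, sum_add_distrib]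

lemma fn_real_mul (z p w : ℂ) (r : ℝ) : fn z p ((r : ℂ) * w) = r * fn z p w := by
  unfold fn cr
  simp only [Complex.mul_re, Complex.mul_im, Complex.ofReal_re, Complex.ofReal_im]
  ring

lemma plucker (a b c w : ℂ) :
    cr a b * cr c w = cr a c * cr b w + cr a w * cr c b := by
  unfold cr; ring

lemma frame_eq (a b w : ℂ) : (cr a b : ℂ) * w = (cr w b : ℂ) * a + (cr a w : ℂ) * b := by
  unfold cr
  apply Complex.ext <;>
  simp only [Complex.mul_re, Complex.mul_im, Complex.add_re, Complex.add_im, Complex.ofReal_re,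
    Complex.ofReal_im] <;> ring

lemma fn_pos {z p w : ℂ} (hz : 0 < z.im) (hp : p ≠ 0) (h : Cone z p w) (hw : w ≠ 0) :
    0 < fn z p w := by
  rcases (fn_nonneg h).lt_or_eq with h1 | h1
  · exact h1
  · exfalso
    have h2 : cr p w = 0 := by
      unfold fn at h1
      linarith [h.1, h.2]
    have h3 : cr w (z * p) = 0 := by
      unfold fn at h1
      linarith [h.1, h.2]
    have h4 := frame_eq p (z * p) w
    rw [h2, h3] at h4
    simp only [Complex.ofReal_zero, zero_mul, add_zero] at h4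
    have h5 : cr p (z * p) ≠ 0 := by
      rw [cr_mul_self]
      exact (mul_pos (sq_add_sq_pos hp) hz).ne'
    rcases mul_eq_zero.1 h4 with h6 | h6
    · exact h5 (by exact_mod_cast h6)
    · exact hw h6

/-- Transitivity of the angular order in a cone. -/
lemma cr_trans {z p a b c : ℂ} (hz : 0 < z.im) (hp : p ≠ 0) (ha : Cone z p a) (hb : Cone z p b)
    (hc : Cone z p c) (hb0 : b ≠ 0) (hab : 0 ≤ cr a b) (hbc : 0 ≤ cr b c) : 0 ≤ cr a c := by
  have hf := fn_pos hz hp hb hb0
  have h1 : cr p b * cr a c = cr p a * cr b c + cr p c * cr a b := plucker p b a c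
  have h2 : cr b (z * p) * cr a c = cr a (z * p) * cr b c + cr c (z * p) * cr a b := by
    unfold cr; ring
  have h3 : fn z p b * cr a c = fn z p a * cr b c + fn z p c * cr a b := by
    unfold fn; linarith
  have h4 : 0 ≤ fn z p b * cr a c := by
    rw [h3]
    exact add_nonneg (mul_nonneg (fn_nonneg ha) hbc) (mul_nonneg (fn_nonneg hc) hab)
  exact nonneg_of_mul_nonneg_right h4 hf

/-- Turning the smaller vector by the angle of the cone. -/
lemma cr_turn {z p a b : ℂ} (hz : 0 < z.im) (hp : p ≠ 0) (ha : Cone z p a) (hb : Cone z p b)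
    (hab : 0 ≤ cr a b) : 0 ≤ cr b (z * a) := by
  -- coordinates in the frame `p, z p`
  have hD : 0 < cr p (z * p) := by
    rw [cr_mul_self]; exact mul_pos (sq_add_sq_pos hp) hz
  obtain ⟨ha1, ha2⟩ := ha
  obtain ⟨hb1, hb2⟩ := hb
  set D := cr p (z * p) with hDdef
  set a1 := cr a (z * p) with ha1def
  set a2 := cr p a with ha2def
  set b1 := cr b (z * p) with hb1def
  set b2 := cr p b with hb2def
  have e1 : D * cr a b = a1 * b2 - a2 * b1 := by
    rw [hDdef, ha1def, ha2def, hb1def, hb2def]; unfold cr; ring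
  -- `D^2 * cr b (z a)` in coordinates
  have e2 : D * D * cr b (z * a) =
      D * (b1 * a1 + 2 * z.re * (b1 * a2) + (z.re ^ 2 + z.im ^ 2) * (b2 * a2)) := by
    rw [hDdef, ha1def, ha2def, hb1def, hb2def]; unfold cr
    simp only [Complex.mul_re, Complex.mul_im]; ring
  have h3 : D * cr b (z * a) =
      b1 * a1 + 2 * z.re * (b1 * a2) + (z.re ^ 2 + z.im ^ 2) * (b2 * a2) := by
    have : D * (D * cr b (z * a)) =
      D * (b1 * a1 + 2 * z.re * (b1 * a2) + (z.re ^ 2 + z.im ^ 2) * (b2 * a2)) := by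
      rw [← e2]; ring
    exact mul_left_cancel₀ hD.ne' this
  have h4 : 0 ≤ D * cr b (z * a) := by
    have h5 : 0 ≤ a1 * b2 - a2 * b1 := by
      rw [← e1]; exact mul_nonneg hD.le hab
    rcases hb1.lt_or_eq with hb | hb
    · have h6 : 0 ≤ b2 * (D * cr b (z * a)) := by
        rw [h3]
        have h7 : b2 * (b1 * a1 + 2 * z.re * (b1 * a2) + (z.re ^ 2 + z.im ^ 2) * (b2 * a2))
            = b1 * (a1 * b2 - a2 * b1) + a2 * ((b1 + z.re * b2) ^ 2 + (z.im * b2) ^ 2) := by ring
        rw [h7]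
        exact add_nonneg (mul_nonneg hb2 h5) (mul_nonneg ha1 (by positivity))
      exact nonneg_of_mul_nonneg_right h6 hb
    · rw [← hb] at h5
      have h8 : a2 * b1 = 0 := by
        have := mul_nonneg ha1 hb2
        linarith
      rw [h3, ← hb]
      have h9 : b1 * a1 + 2 * z.re * (b1 * a2) + (z.re ^ 2 + z.im ^ 2) * (0 * a2)
          = b1 * a1 + 2 * z.re * (a2 * b1) := by ring
      rw [h9, h8]
      have := mul_nonneg hb2 ha2
      linarith
  exact nonneg_of_mul_nonneg_right h4 hD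

/-- The two triangular arrays. -/
def VD {R : Type*} [CommRing R] (z : R) : ℕ → (ℕ → R) × (ℕ → R)
  | 0 => (fun _ => 1, fun _ => 1)
  | K + 1 => (fun i => ∑ l ∈ Ico i (K + 1), (VD z K).1 l + z * ∑ l ∈ range i, (VD z K).2 l,
      fun i => ∑ l ∈ Ico i (K + 1), (VD z K).1 l)

/-- The invariant. -/
structure Inv (z : ℂ) (K : ℕ) (v d : ℕ → ℂ) : Prop where
  h0 : d 0 = v 0
  ne : ∀ i ≤ K, v i ≠ 0
  cv : ∀ i ≤ K, Cone z (v 0) (v i)
  cd : ∀ i ≤ K, Cone z (v 0) (d i)
  ca : ∀ i ≤ K, Cone z (v 0) (v i - d i)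
  vv : ∀ i j, i ≤ j → j ≤ K → 0 ≤ cr (v i) (v j)
  dd : ∀ i j, i ≤ j → j ≤ K → 0 ≤ cr (d i) (d j)
  da : ∀ i j, i ≤ K → j ≤ K → 0 ≤ cr (d i) (v j - d j)

lemma inv_zero {z : ℂ} (hz : 0 < z.im) : Inv z 0 (fun _ => 1) (fun _ => 1) := by
  have h1 : Cone z 1 1 := by
    refine ⟨by simp [cr], ?_⟩
    unfold cr; simp [hz.le]
  have h2 : Cone z 1 (1 - 1) := by
    refine ⟨by simp [cr], by simp [cr]⟩
  exact ⟨rfl, fun _ _ => one_ne_zero, fun _ _ => h1, fun _ _ => h1, fun _ _ => h2,
    fun _ _ _ _ => by simp [cr], fun _ _ _ _ => by simp [cr], fun _ _ _ _ => by simp [cr]⟩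

lemma inv_step {z : ℂ} (hz : 0 < z.im) {K : ℕ} {v d : ℕ → ℂ} (H : Inv z K v d) :
    Inv z (K + 1) (fun i => ∑ l ∈ Ico i (K + 1), v l + z * ∑ l ∈ range i, d l)
      (fun i => ∑ l ∈ Ico i (K + 1), v l) := by
  have hp : v 0 ≠ 0 := H.ne 0 (Nat.zero_le _)
  set p := v 0 with hpdef
  -- notation
  set σ : ℂ := ∑ l ∈ Ico 0 (K + 1), v l with hσ
  have cS : ∀ i, Cone z p (∑ l ∈ Ico i (K + 1), v l) := fun i =>
    Cone.sum fun l hl => H.cv l (by have := mem_Ico.1 hl; omega)
  have cΔ : ∀ i ≤ K + 1, Cone z p (∑ l ∈ range i, d l) := fun i hi =>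
    Cone.sum fun l hl => H.cd l (by have := mem_range.1 hl; omega)
  -- nonvanishing of the sums
  have hSne : ∀ i ≤ K, ∑ l ∈ Ico i (K + 1), v l ≠ 0 := by
    intro i hi h0
    have h1 : fn z p (∑ l ∈ Ico i (K + 1), v l) = 0 := by rw [h0]; simp [fn, cr]
    rw [fn_sum] at h1
    have h2 : 0 < ∑ l ∈ Ico i (K + 1), fn z p (v l) := by
      apply sum_pos
      · intro l hl
        have hl' : l ≤ K := by have := mem_Ico.1 hl; omega
        exact fn_pos hz hp (H.cv l hl') (H.ne l hl')
      · exact ⟨i, mem_Ico.2 ⟨le_rfl, by omega⟩⟩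
    exact absurd h1 h2.ne'
  have hσ0 : σ ≠ 0 := hSne 0 (Nat.zero_le _)
  have hΔne : ∀ i, 1 ≤ i → i ≤ K + 1 → ∑ l ∈ range i, d l ≠ 0 := by
    intro i hi1 hi h0
    have h1 : fn z p (∑ l ∈ range i, d l) = 0 := by rw [h0]; simp [fn, cr]
    rw [fn_sum] at h1
    have h2 : 0 < ∑ l ∈ range i, fn z p (d l) := by
      apply sum_pos'
      · intro l hl
        have hl' : l ≤ K := by have := mem_range.1 hl; omega
        exact fn_nonneg (H.cd l hl')
      · refine ⟨0, mem_range.2 (by omega), ?_⟩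
        rw [H.h0]
        exact fn_pos hz hp (H.cv 0 (Nat.zero_le _)) hp
    exact absurd h1 h2.ne'
  -- `Δ_i × σ ≥ 0`
  have hΔσ : ∀ i ≤ K + 1, 0 ≤ cr (∑ l ∈ range i, d l) σ := by
    intro i hi
    have h1 : σ = (∑ l ∈ range i, d l) + ∑ l ∈ Ico i (K + 1), d l
        + ∑ l ∈ Ico 0 (K + 1), (v l - d l) := by
      have h2 : (∑ l ∈ range i, d l) + ∑ l ∈ Ico i (K + 1), d l = ∑ l ∈ Ico 0 (K + 1), d l := by
        rw [range_eq_Ico, sum_Ico_consecutive _ (Nat.zero_le _) hi]
      rw [h2, ← sum_add_distrib, hσ]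
      exact sum_congr rfl fun l _ => by ring
    rw [h1, cr_add_right, cr_add_right, cr_self, zero_add]
    apply add_nonneg
    · rw [cr_sum_left]
      apply sum_nonneg
      intro l hl
      rw [cr_sum_right]
      apply sum_nonneg
      intro m hm
      have h3 := mem_range.1 hl
      have h4 := mem_Ico.1 hm
      exact H.dd l m (by omega) (by omega)
    · rw [cr_sum_left]
      apply sum_nonneg
      intro l hl
      rw [cr_sum_right]
      apply sum_nonneg
      intro m hm
      have h3 := mem_range.1 hl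
      have h4 := mem_Ico.1 hm
      exact H.da l m (by omega) (by omega)
  -- `σ × d'_i ≥ 0`, and more generally `d'` is monotone
  have hSS : ∀ i j, i ≤ j → j ≤ K + 1 →
      0 ≤ cr (∑ l ∈ Ico i (K + 1), v l) (∑ l ∈ Ico j (K + 1), v l) := by
    intro i j hij hj
    rw [← sum_Ico_consecutive _ hij hj, cr_add_left, cr_self, add_zero, cr_sum_left]
    apply sum_nonneg
    intro l hl
    rw [cr_sum_right]
    apply sum_nonneg
    intro m hm
    have h3 := mem_Ico.1 hl
    have h4 := mem_Ico.1 hm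
    exact H.vv l m (by omega) (by omega)
  -- cones with respect to `σ`
  have cσS : ∀ i ≤ K + 1, Cone z σ (∑ l ∈ Ico i (K + 1), v l) := by
    intro i hi
    have h1 := hSS 0 i (Nat.zero_le _) hi
    exact ⟨h1, cr_turn hz hp (cS 0) (cS i) h1⟩
  have cσA : ∀ i ≤ K + 1, Cone z σ (z * ∑ l ∈ range i, d l) := by
    intro i hi
    refine ⟨cr_turn hz hp (cΔ i hi) (cS 0) (hΔσ i hi), ?_⟩
    rw [cr_mul_mul]
    exact mul_nonneg (by positivity) (hΔσ i hi)
  -- `d' × a' ≥ 0`
  have hSA : ∀ i ≤ K + 1, ∀ j ≤ K + 1,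
      0 ≤ cr (∑ l ∈ Ico i (K + 1), v l) (z * ∑ l ∈ range j, d l) := by
    intro i hi j hj
    apply cr_turn hz hp (cΔ j hj) (cS i)
    exact cr_trans hz hp (cΔ j hj) (cS 0) (cS i) hσ0 (hΔσ j hj) (hSS 0 i (Nat.zero_le _) hi)
  -- `v_m × z d_l ≥ 0` for `l ≤ m`
  have hvzd : ∀ l m, l ≤ m → m ≤ K → 0 ≤ cr (v m) (z * d l) := by
    intro l m hlm hm
    apply cr_turn hz hp (H.cd l (by omega)) (H.cv m hm)
    have h1 : v m = d m + (v m - d m) := by ring
    rw [h1, cr_add_right]
    exact add_nonneg (H.dd l m hlm hm) (H.da l m (by omega) hm)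
  have ne' : ∀ i ≤ K + 1, ∑ l ∈ Ico i (K + 1), v l + z * ∑ l ∈ range i, d l ≠ 0 := by
    intro i hi h0
    have h1 : fn z σ (∑ l ∈ Ico i (K + 1), v l + z * ∑ l ∈ range i, d l) = 0 := by
      rw [h0]; simp [fn, cr]
    rw [fn_add] at h1
    have h2 := fn_nonneg (cσS i hi)
    have h3 := fn_nonneg (cσA i hi)
    rcases Nat.lt_or_ge i (K + 1) with h4 | h4
    · have h5 := fn_pos hz hσ0 (cσS i hi) (hSne i (by omega))
      linarith
    · have hz0 : z ≠ 0 := by rintro rfl; simp at hz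
      have h5 := fn_pos hz hσ0 (cσA i hi) (mul_ne_zero hz0 (hΔne i (by omega) hi))
      linarith
  have hv0 : ∑ l ∈ Ico 0 (K + 1), v l + z * ∑ l ∈ range 0, d l = σ := by
    rw [range_zero, sum_empty, mul_zero, add_zero]
  have cv' : ∀ i ≤ K + 1, Cone z σ (∑ l ∈ Ico i (K + 1), v l + z * ∑ l ∈ range i, d l) :=
    fun i hi => (cσS i hi).add (cσA i hi)
  -- consecutive monotonicity of `v'`
  have hstep : ∀ i ≤ K, 0 ≤ cr (∑ l ∈ Ico i (K + 1), v l + z * ∑ l ∈ range i, d l)
      (∑ l ∈ Ico (i + 1) (K + 1), v l + z * ∑ l ∈ range (i + 1), d l) := by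
    intro i hi
    set Y : ℂ := ∑ l ∈ Ico (i + 1) (K + 1), v l + z * ∑ l ∈ range i, d l with hY
    have e1 : ∑ l ∈ Ico i (K + 1), v l + z * ∑ l ∈ range i, d l = v i + Y := by
      rw [sum_eq_sum_Ico_succ_bot (by omega : i < K + 1), hY]; ring
    have e2 : ∑ l ∈ Ico (i + 1) (K + 1), v l + z * ∑ l ∈ range (i + 1), d l = Y + z * d i := by
      rw [sum_range_succ, hY]; ring
    rw [e1, e2]
    have h1 : 0 ≤ cr (v i) Y := by
      rw [hY, cr_add_right]
      apply add_nonneg
      · rw [cr_sum_right]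
        apply sum_nonneg
        intro m hm
        have h4 := mem_Ico.1 hm
        exact H.vv i m (by omega) (by omega)
      · rw [mul_sum, cr_sum_right]
        apply sum_nonneg
        intro l hl
        have h4 := mem_range.1 hl
        exact hvzd l i (by omega) hi
    have h2 : 0 ≤ cr (v i) (z * d i) := hvzd i i le_rfl hi
    have h3 : 0 ≤ cr Y (z * d i) := by
      rw [hY, cr_add_left]
      apply add_nonneg
      · rw [cr_sum_left]
        apply sum_nonneg
        intro m hm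
        have h4 := mem_Ico.1 hm
        exact hvzd i m (by omega) (by omega)
      · rw [cr_mul_mul, cr_sum_left]
        apply mul_nonneg (by positivity)
        apply sum_nonneg
        intro l hl
        have h4 := mem_range.1 hl
        exact H.dd l i (by omega) hi
    have h4 : cr (v i + Y) (Y + z * d i)
        = cr (v i) Y + cr (v i) (z * d i) + cr Y (z * d i) := by
      rw [cr_add_left, cr_add_right (v i) Y (z * d i), cr_add_right Y Y (z * d i), cr_self]
      ring
    rw [h4]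
    exact add_nonneg (add_nonneg h1 h2) h3
  have hmono : ∀ i j, i ≤ j → j ≤ K + 1 →
      0 ≤ cr (∑ l ∈ Ico i (K + 1), v l + z * ∑ l ∈ range i, d l)
        (∑ l ∈ Ico j (K + 1), v l + z * ∑ l ∈ range j, d l) := by
    intro i j hij
    induction j, hij using Nat.le_induction with
    | base => intro _; rw [cr_self]
    | succ j hij ih =>
      intro hj
      exact cr_trans hz hσ0 (cv' i (by omega)) (cv' j (by omega)) (cv' (j + 1) hj)
        (ne' j (by omega)) (ih (by omega)) (hstep j (by omega))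
  refine ⟨?_, ne', ?_, ?_, ?_, hmono, hSS, ?_⟩
  · simp
  · intro i hi
    simp only [hv0]
    exact cv' i hi
  · intro i hi
    simp only [hv0]
    exact cσS i hi
  · intro i hi
    simp only [hv0, add_sub_cancel_left]
    exact cσA i hi
  · intro i j hi hj
    simp only [add_sub_cancel_left]
    exact hSA i hi j hj

lemma inv_all {z : ℂ} (hz : 0 < z.im) (K : ℕ) : Inv z K (VD z K).1 (VD z K).2 := by
  induction K with
  | zero => exact inv_zero hz
  | succ K ih => exact inv_step hz ih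

/-- A nontrivial nonnegative combination of a row of the first array does not vanish. -/
theorem comb_ne_zero_im {z : ℂ} (hz : 0 < z.im) (K : ℕ) (c : ℕ → ℝ) (hc : ∀ i ≤ K, 0 ≤ c i)
    (hK : 0 < c K) : ∑ i ∈ range (K + 1), (c i : ℂ) * (VD z K).1 i ≠ 0 := by
  intro h0
  have H := inv_all hz K
  have hp := H.ne 0 (Nat.zero_le _)
  have h1 : fn z ((VD z K).1 0) (∑ i ∈ range (K + 1), (c i : ℂ) * (VD z K).1 i) = 0 := by
    rw [h0]; simp [fn, cr]
  rw [fn_sum] at h1
  have h2 : 0 < ∑ i ∈ range (K + 1), fn z ((VD z K).1 0) ((c i : ℂ) * (VD z K).1 i) := by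
    apply sum_pos'
    · intro i hi
      have h3 := mem_range.1 hi
      rw [fn_real_mul]
      exact mul_nonneg (hc i (by omega)) (fn_nonneg (H.cv i (by omega)))
    · refine ⟨K, mem_range.2 (by omega), ?_⟩
      rw [fn_real_mul]
      exact mul_pos hK (fn_pos hz hp (H.cv K le_rfl) (H.ne K le_rfl))
  exact absurd h1 h2.ne'

lemma VD_real_pos {t : ℝ} (ht : 0 < t) (K : ℕ) :
    (∀ i ≤ K, 0 < (VD t K).1 i) ∧ (∀ i ≤ K, 0 ≤ (VD t K).2 i) ∧ 0 < (VD t K).2 0 := by
  induction K with
  | zero => simp [VD]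
  | succ K ih =>
    obtain ⟨h1, h2, h3⟩ := ih
    have hS : ∀ i, 0 ≤ ∑ l ∈ Ico i (K + 1), (VD t K).1 l := fun i =>
      sum_nonneg fun l hl => (h1 l (by have := mem_Ico.1 hl; omega)).le
    have hD : ∀ i ≤ K + 1, 0 ≤ ∑ l ∈ range i, (VD t K).2 l := fun i hi =>
      sum_nonneg fun l hl => (h2 l (by have := mem_range.1 hl; omega))
    have hSpos : ∀ i ≤ K, 0 < ∑ l ∈ Ico i (K + 1), (VD t K).1 l := fun i hi =>
      sum_pos (fun l hl => (h1 l (by have := mem_Ico.1 hl; omega)))
        ⟨i, mem_Ico.2 ⟨le_rfl, by omega⟩⟩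
    refine ⟨?_, fun i _ => hS i, hSpos 0 (Nat.zero_le _)⟩
    intro i hi
    simp only [VD]
    rcases Nat.lt_or_ge i (K + 1) with h4 | h4
    · exact add_pos_of_pos_of_nonneg (hSpos i (by omega)) (mul_nonneg ht.le (hD i hi))
    · refine add_pos_of_nonneg_of_pos (hS i) (mul_pos ht ?_)
      apply sum_pos'
      · intro l hl
        exact h2 l (by have := mem_range.1 hl; omega)
      · exact ⟨0, mem_range.2 (by omega), h3⟩

lemma VD_map {R S : Type*} [CommRing R] [CommRing S] (f : R →+* S) (z : R) (K : ℕ) :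
    (∀ i, (VD (f z) K).1 i = f ((VD z K).1 i)) ∧ (∀ i, (VD (f z) K).2 i = f ((VD z K).2 i)) := by
  induction K with
  | zero => simp [VD]
  | succ K ih =>
    obtain ⟨h1, h2⟩ := ih
    refine ⟨fun i => ?_, fun i => ?_⟩
    · simp only [VD, map_add, map_sum, map_mul, h1, h2]
    · simp only [VD, map_sum, h1]

/-- A nontrivial nonnegative combination of a row of the first array does not vanish, when `z` is
not a nonpositive real number. -/
theorem comb_ne_zero {z : ℂ} (hz : ¬ (z.im = 0 ∧ z.re ≤ 0)) (K : ℕ) (c : ℕ → ℝ)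
    (hc : ∀ i ≤ K, 0 ≤ c i) (hK : 0 < c K) :
    ∑ i ∈ range (K + 1), (c i : ℂ) * (VD z K).1 i ≠ 0 := by
  rcases lt_trichotomy z.im 0 with h | h | h
  · -- conjugate
    have h1 : 0 < ((starRingEnd ℂ) z).im := by
      rw [Complex.conj_im]; linarith
    have h2 := comb_ne_zero_im h1 K c hc hK
    intro h0
    apply h2
    have h3 : ∑ i ∈ range (K + 1), (c i : ℂ) * (VD ((starRingEnd ℂ) z) K).1 i
        = (starRingEnd ℂ) (∑ i ∈ range (K + 1), (c i : ℂ) * (VD z K).1 i) := by
      rw [map_sum]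
      apply sum_congr rfl
      intro i _
      rw [map_mul, Complex.conj_ofReal, (VD_map (starRingEnd ℂ) z K).1]
    rw [h3, h0, map_zero]
  · -- real
    have h1 : 0 < z.re := by
      by_contra h2
      exact hz ⟨h, by linarith⟩
    have h2 : z = ((z.re : ℝ) : ℂ) := by
      apply Complex.ext <;> simp [h]
    obtain ⟨h3, -, -⟩ := VD_real_pos h1 K
    have h4 : ∀ i, (VD z K).1 i = (((VD z.re K).1 i : ℝ) : ℂ) := by
      intro i
      conv_lhs => rw [h2]
      exact (VD_map Complex.ofRealHom z.re K).1 i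
    intro h0
    have h5 : ((∑ i ∈ range (K + 1), c i * (VD z.re K).1 i : ℝ) : ℂ) = 0 := by
      rw [← h0]
      push_cast
      exact sum_congr rfl fun i _ => by rw [h4]
    have h6 : ∑ i ∈ range (K + 1), c i * (VD z.re K).1 i = 0 := by exact_mod_cast h5
    have h7 : 0 < ∑ i ∈ range (K + 1), c i * (VD z.re K).1 i := by
      apply sum_pos'
      · intro i hi
        have h8 := mem_range.1 hi
        exact mul_nonneg (hc i (by omega)) (h3 i (by omega)).le
      · exact ⟨K, mem_range.2 (by omega), mul_pos hK (h3 K le_rfl)⟩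
    exact absurd h6 h7.ne'
  · exact comb_ne_zero_im h K c hc hK

end DualChow
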