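import Pool.Agent.H66.DC.Paving
import Pool.Agent.H66.DC.Chain
import Pool.Agent.H66.DC.Algebra

/-!
# The dual Chow polynomial of a paving matroid
-/

namespace DualChow

open Finset Polynomial IncidenceAlgebra

variable {α : Type*} {M : Matroid α} [M.Finite] {K : ℕ}

/-- Sums over small flats in an interval. -/
lemma sum_small {R : Type*} [CommRing R] (hr : M.eRank = ((K + 2 : ℕ) : ℕ∞)) (hp : IsPaving M)
    {A T : Flat M} (h : A ≤ T) (hA : #(fs A) ≤ K) (φ : ℕ → R) :
    ∑ Y ∈ Icc A T with #(fs Y) ≤ K, φ #(fs Y)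
      = ∑ s ∈ range (K + 1 - #(fs A)), ((#(fs T) - #(fs A)).choose s : R) * φ (#(fs A) + s) := by
  classical
  rw [← sum_Icc_card_le (fs_subset_iff.2 h) K hA φ]
  refine sum_bij (fun Y _ => fs Y) ?_ ?_ ?_ ?_
  · intro Y hY
    rw [mem_filter, mem_Icc] at hY
    rw [mem_filter, mem_Icc]
    exact ⟨⟨fs_subset_iff.2 hY.1.1, fs_subset_iff.2 hY.1.2⟩, hY.2⟩
  · intro Y _ Z _ hYZ
    exact fs_inj hYZ
  · intro Y hY
    rw [mem_filter, mem_Icc] at hY
    have hYE : (Y : Set α) ⊆ M.E := by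
      have h1 : Y ⊆ fs T := hY.1.2
      intro a ha
      have h2 : a ∈ (fs T : Set α) := h1 ha
      rw [coe_fs] at h2
      exact T.2.subset_ground h2
    have hfl := isFlat_of_card hr hp hYE hY.2
    have h3 : fs (⟨(Y : Set α), hfl⟩ : Flat M) = Y := by
      apply Finset.coe_injective
      rw [coe_fs]
    refine ⟨⟨(Y : Set α), hfl⟩, ?_, h3⟩
    rw [mem_filter, mem_Icc, ← fs_subset_iff, ← fs_subset_iff, h3]
    exact ⟨hY.1, hY.2⟩
  · intro Y _
    rfl

lemma card_fs_mono {F G : Flat M} (h : F ≤ G) : #(fs F) ≤ #(fs G) :=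
  card_le_card (fs_subset_iff.2 h)

lemma card_fs_lt {F G : Flat M} (h : F < G) : #(fs F) < #(fs G) := by
  apply card_lt_card
  rw [Finset.ssubset_iff_subset_ne]
  exact ⟨fs_subset_iff.2 h.le, fun h1 => h.ne (fs_inj h1)⟩

/-- Alternating sums over small flats. -/
lemma alt_small (hr : M.eRank = ((K + 2 : ℕ) : ℕ∞)) (hp : IsPaving M)
    {A T : Flat M} (h : A < T) (hA : #(fs A) ≤ K) :
    ∑ Y ∈ Icc A T with #(fs Y) ≤ K, (-1 : ℤ) ^ (#(fs Y) - #(fs A))
      = (-1) ^ (K - #(fs A)) * ((#(fs T) - #(fs A) - 1).choose (K - #(fs A)) : ℤ) := by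
  have hlt := card_fs_lt h
  have h1 := sum_small (R := ℤ) hr hp h.le hA (fun i => (-1) ^ (i - #(fs A)))
  rw [h1]
  have h2 : ∀ s ∈ range (K + 1 - #(fs A)),
      (((#(fs T) - #(fs A)).choose s : ℕ) : ℤ) * (-1) ^ (#(fs A) + s - #(fs A))
        = (-1) ^ s * (((#(fs T) - #(fs A) - 1 + 1).choose s : ℕ) : ℤ) := by
    intro s _
    rw [Nat.add_sub_cancel_left, mul_comm]
    congr 4
    omega
  rw [sum_congr rfl h2, show K + 1 - #(fs A) = (K - #(fs A)) + 1 by omega]
  exact Int.alternating_sum_range_choose_eq_choose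

lemma Ico_eq_erase (A T : Flat M) : Ico A T = (Icc A T).erase T := by
  rw [Finset.Icc_erase_right]

/-- Möbius function between small flats. -/
lemma mu_small (hr : M.eRank = ((K + 2 : ℕ) : ℕ∞)) (hp : IsPaving M) {A : Flat M}
    (hA : #(fs A) ≤ K) : ∀ (n : ℕ) (T : Flat M), #(fs T) = n → A ≤ T → n ≤ K →
      mu ℤ A T = (-1) ^ (#(fs T) - #(fs A)) := by
  classical
  intro n
  induction n using Nat.strong_induction_on with
  | _ n ih =>
    intro T hT hAT hn
    rcases hAT.eq_or_lt with h | h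
    · subst h; simp
    · rw [mu_eq_neg_sum_Ico_of_ne h.ne]
      have h1 : ∀ Y ∈ Ico A T, mu ℤ A Y = (-1) ^ (#(fs Y) - #(fs A)) := by
        intro Y hY
        rw [mem_Ico] at hY
        have h2 := card_fs_lt hY.2
        exact ih #(fs Y) (by omega) Y rfl hY.1 (by omega)
      rw [sum_congr rfl h1]
      have h3 := alt_small hr hp h hA
      have h4 : (Icc A T).filter (fun Y => #(fs Y) ≤ K) = Icc A T := by
        rw [filter_eq_self]
        intro Y hY
        exact (card_fs_mono (mem_Icc.1 hY).2).trans (by omega)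
      rw [h4, Nat.choose_eq_zero_of_lt (by have := card_fs_lt h; omega)] at h3
      rw [Ico_eq_erase]
      have h5 := add_sum_erase (Icc A T) (fun Y => (-1 : ℤ) ^ (#(fs Y) - #(fs A)))
        (mem_Icc.2 ⟨h.le, le_rfl⟩)
      rw [h3] at h5
      push_cast at h5
      linarith

/-- Möbius function between a small flat and a hyperplane. -/
lemma mu_hyp (hr : M.eRank = ((K + 2 : ℕ) : ℕ∞)) (hp : IsPaving M) {A H : Flat M}
    (hA : #(fs A) ≤ K) (hH : rk M H = K + 1) (h : A ≤ H) :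
    mu ℤ A H = -((-1) ^ (K - #(fs A)) * ((#(fs H) - #(fs A) - 1).choose (K - #(fs A)) : ℤ)) := by
  classical
  have hHc := rk_le_card H
  have hne : A ≠ H := by
    rintro rfl
    omega
  rw [mu_eq_neg_sum_Ico_of_ne hne, ← alt_small hr hp (lt_of_le_of_ne h hne) hA]
  congr 1
  have h1 : (Icc A H).filter (fun Y => #(fs Y) ≤ K) = Ico A H := by
    ext Y
    rw [mem_filter, mem_Icc, mem_Ico]
    constructor
    · rintro ⟨⟨h1, h2⟩, h3⟩
      refine ⟨h1, lt_of_le_of_ne h2 ?_⟩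
      rintro rfl
      omega
    · rintro ⟨h1, h2⟩
      refine ⟨⟨h1, h2.le⟩, ?_⟩
      rw [card_le_iff hr hp]
      have := rk_lt_of_lt h2
      omega
  rw [h1]
  apply sum_congr rfl
  intro Y hY
  rw [mem_Ico] at hY
  apply mu_small hr hp hA _ Y rfl hY.1
  rw [card_le_iff hr hp]
  have := rk_lt_of_lt hY.2
  omega

open Classical in
/-- The hyperplanes. -/
noncomputable def hyps (M : Matroid α) [M.Finite] (K : ℕ) : Finset (Flat M) :=
  univ.filter fun H => rk M H = K + 1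

lemma mem_hyps {H : Flat M} : H ∈ hyps M K ↔ rk M H = K + 1 := by
  classical
  unfold hyps
  rw [mem_filter]
  exact ⟨fun h => h.2, fun h => ⟨mem_univ _, h⟩⟩

open Classical in
/-- Splitting sums over proper flats. -/
lemma sum_Ico_top {R : Type*} [CommRing R] (hr : M.eRank = ((K + 2 : ℕ) : ℕ∞)) (hp : IsPaving M)
    (A : Flat M) (g : Flat M → R) :
    ∑ Y ∈ Ico A ⊤, g Y = ∑ Y ∈ Icc A ⊤ with #(fs Y) ≤ K, g Y
      + ∑ H ∈ hyps M K with A ≤ H, g H := by
  rw [← sum_filter_add_sum_filter_not (Ico A ⊤) (fun Y => #(fs Y) ≤ K)]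
  have ht := rk_top hr
  congr 1
  · apply sum_congr _ fun _ _ => rfl
    ext Y
    rw [mem_filter, mem_filter, mem_Icc, mem_Ico]
    constructor
    · rintro ⟨⟨h1, h2⟩, h3⟩
      exact ⟨⟨h1, h2.le⟩, h3⟩
    · rintro ⟨⟨h1, h2⟩, h3⟩
      refine ⟨⟨h1, lt_of_le_of_ne h2 ?_⟩, h3⟩
      rintro rfl
      rw [card_le_iff hr hp] at h3
      omega
  · apply sum_congr _ fun _ _ => rfl
    ext Y
    rw [mem_filter, mem_filter, mem_hyps, mem_Ico, card_le_iff hr hp]
    constructor
    · rintro ⟨⟨h1, h2⟩, h3⟩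
      have h4 := rk_lt_of_lt h2
      exact ⟨by omega, h1⟩
    · rintro ⟨h1, h2⟩
      refine ⟨⟨h2, lt_of_le_of_ne le_top ?_⟩, by omega⟩
      rintro rfl
      omega

lemma lt_top_of_small (hr : M.eRank = ((K + 2 : ℕ) : ℕ∞)) (hp : IsPaving M) {A : Flat M}
    (hA : #(fs A) ≤ K) : A < ⊤ := by
  apply lt_of_le_of_ne le_top
  rintro rfl
  rw [card_le_iff hr hp, rk_top hr] at hA
  omega

open Classical in
/-- Möbius function between a small flat and the ground set. -/
lemma mu_top (hr : M.eRank = ((K + 2 : ℕ) : ℕ∞)) (hp : IsPaving M) {A : Flat M}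
    (hA : #(fs A) ≤ K) :
    mu ℤ A ⊤ = (-1) ^ (K - #(fs A)) *
      (∑ H ∈ hyps M K with A ≤ H, ((#(fs H) - #(fs A) - 1).choose (K - #(fs A)) : ℤ)
        - ((#(fs (⊤ : Flat M)) - #(fs A) - 1).choose (K - #(fs A)) : ℤ)) := by
  have hlt := lt_top_of_small hr hp hA
  rw [mu_eq_neg_sum_Ico_of_ne hlt.ne, sum_Ico_top hr hp]
  have h1 : ∑ Y ∈ Icc A ⊤ with #(fs Y) ≤ K, mu ℤ A Y
      = ∑ Y ∈ Icc A ⊤ with #(fs Y) ≤ K, (-1 : ℤ) ^ (#(fs Y) - #(fs A)) := by
    apply sum_congr rfl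
    intro Y hY
    rw [mem_filter, mem_Icc] at hY
    exact mu_small hr hp hA _ Y rfl hY.1.1 hY.2
  have h2 : ∑ H ∈ hyps M K with A ≤ H, mu ℤ A H
      = ∑ H ∈ hyps M K with A ≤ H,
        -((-1) ^ (K - #(fs A)) * ((#(fs H) - #(fs A) - 1).choose (K - #(fs A)) : ℤ)) := by
    apply sum_congr rfl
    intro H hH
    rw [mem_filter, mem_hyps] at hH
    exact mu_hyp hr hp hA hH.1 hH.2
  rw [h1, alt_small hr hp hlt hA, h2, sum_neg_distrib, ← mul_sum]
  ring

/-- The weights of the chain sum. -/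
noncomputable def uu (M : Matroid α) [M.Finite] (F : Flat M) : ℤ[X] := C (mu ℤ ⊥ F)

/-- The weights of the chain sum. -/
noncomputable def ww (M : Matroid α) [M.Finite] (F G : Flat M) : ℤ[X] :=
  C (mu ℤ F G) * gap (rk M G - rk M F)

lemma gap_eq (d : ℕ) : gap d = wq (X : ℤ[X]) d := rfl

lemma dualChow_eq (M : Matroid α) [M.Finite] :
    dualChow M = (-1) ^ M.eRank.toNat * ∑ᶠ m : ℕ, chainSum (uu M) (ww M) ⊤ m := rfl

lemma neg_one_mul_neg_one {R : Type*} [CommRing R] {a b : ℕ} (h : a ≤ b) :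
    (-1 : R) ^ a * (-1) ^ (b - a) = (-1) ^ b := by
  rw [← pow_add]; congr 1; omega

/-- The chain sums of small flats. -/
lemma chain_small (hr : M.eRank = ((K + 2 : ℕ) : ℕ∞)) (hp : IsPaving M) :
    ∀ (n : ℕ) (F : Flat M), #(fs F) = n → n ≤ K →
      ∑ᶠ m : ℕ, chainSum (uu M) (ww M) F m = (-1) ^ n * hB (X : ℤ[X]) n := by
  classical
  intro n
  induction n using Nat.strong_induction_on with
  | _ n ih =>
    intro F hF hn
    have hbot : #(fs (⊥ : Flat M)) ≤ K := by rw [fs_bot hr hp]; simp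
    rw [chain_rec]
    have h1 : uu M F = (-1) ^ n := by
      unfold uu
      rw [mu_small hr hp hbot n F hF bot_le hn, fs_bot hr hp, hF]
      simp
    have h2 : ∀ G ∈ (univ.filter fun G : Flat M => G < F),
        (∑ᶠ m : ℕ, chainSum (uu M) (ww M) G m) * ww M G F
          = (-1) ^ n * (hB (X : ℤ[X]) #(fs G) * wq X (n - #(fs G))) := by
      intro G hG
      rw [mem_filter] at hG
      have hlt := card_fs_lt hG.2
      rw [ih #(fs G) (by omega) G rfl (by omega)]
      unfold ww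
      rw [mu_small hr hp (by omega : #(fs G) ≤ K) n F hF hG.2.le hn, gap_eq,
        rk_of_card hr hp (by omega : #(fs F) ≤ K + 1),
        rk_of_card hr hp (by omega : #(fs G) ≤ K + 1), hF]
      rw [← neg_one_mul_neg_one (R := ℤ[X]) (by omega : #(fs G) ≤ n)]
      simp only [map_pow, map_neg, map_one]
      ring
    rw [h1, sum_congr rfl h2, ← mul_sum]
    have h3 : ∑ G ∈ (univ.filter fun G : Flat M => G < F),
        hB (X : ℤ[X]) #(fs G) * wq X (n - #(fs G))
        = ∑ G ∈ Icc (⊥ : Flat M) F with #(fs G) ≤ K,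
            hB (X : ℤ[X]) #(fs G) * wq X (n - #(fs G)) := by
      apply sum_subset_zero_on_sdiff
      · intro G hG
        rw [mem_filter] at hG
        rw [mem_filter, mem_Icc]
        exact ⟨⟨bot_le, hG.2.le⟩, (card_fs_mono hG.2.le).trans (by omega)⟩
      · intro G hG
        rw [mem_sdiff, mem_filter, mem_filter, mem_Icc] at hG
        have h4 : G = F := by
          by_contra hne
          exact hG.2 ⟨mem_univ _, lt_of_le_of_ne hG.1.1.2 hne⟩
        rw [h4, hF, Nat.sub_self, wq_zero, mul_zero]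
      · intro G _; rfl
    rw [h3, sum_small hr hp bot_le hbot (fun i => hB (X : ℤ[X]) i * wq X (n - i)),
      fs_bot hr hp, hB_eq, hF]
    simp only [card_empty, Nat.sub_zero, zero_add]
    have h5 : ∑ s ∈ range (K + 1), ((n.choose s : ℕ) : ℤ[X]) * (hB (X : ℤ[X]) s * wq X (n - s))
        = ∑ j ∈ range n, ((n.choose j : ℕ) : ℤ[X]) * wq X (n - j) * hB X j := by
      symm
      apply sum_subset_zero_on_sdiff
      · exact range_mono (by omega)
      · intro s hs
        rw [mem_sdiff, mem_range, mem_range] at hs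
        rw [Nat.sub_eq_zero_of_le (by omega), wq_zero]
        ring
      · intro s _; ring
    rw [h5]
    ring

end DualChow
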