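import Pool.Agent.H66.DC.Count
/-!
# Flats of paving matroids
-/

namespace DualChow

open Finset

section Flats
variable {α : Type*} {M : Matroid α} [M.Finite]

/-- The underlying finset of a flat. -/
noncomputable def fs (F : Flat M) : Finset α :=
  (M.ground_finite.subset F.2.subset_ground).toFinset

@[simp] lemma coe_fs (F : Flat M) : (fs F : Set α) = F.1 := by simp [fs]

lemma fs_subset_iff {F G : Flat M} : fs F ⊆ fs G ↔ F ≤ G := by
  rw [← Finset.coe_subset, coe_fs, coe_fs]; rfl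

lemma fs_inj {F G : Flat M} (h : fs F = fs G) : F = G := by
  apply le_antisymm
  · exact fs_subset_iff.1 h.subset
  · exact fs_subset_iff.1 h.symm.subset

lemma rk_cast (F : Flat M) : ((rk M F : ℕ) : ℕ∞) = M.eRk F.1 := by
  unfold rk
  exact ENat.natCast_toNat (Matroid.eRk_ne_top_iff.2 (M.isRkFinite_set F.1))

lemma rk_lt_of_lt {F G : Flat M} (h : F < G) : rk M F < rk M G := by
  by_contra h1
  rw [not_lt] at h1
  have h2 : M.eRk G.1 ≤ M.eRk F.1 := by
    rw [← rk_cast, ← rk_cast]; exact_mod_cast h1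
  have h3 := (M.isRkFinite_set F.1).closure_eq_closure_of_subset_of_eRk_ge_eRk (Y := G.1) h.le h2
  rw [F.2.closure, G.2.closure] at h3
  exact h.ne (Subtype.ext h3)

lemma rk_le_card (F : Flat M) : rk M F ≤ #(fs F) := by
  have h := M.eRk_le_encard F.1
  rw [← rk_cast, ← coe_fs, Set.encard_coe_eq_coe_finsetCard] at h
  exact_mod_cast h

end Flats

section Paving

variable {α : Type*} {M : Matroid α} [M.Finite] {K : ℕ}

omit [M.Finite] in
lemma indep_of_card (hr : M.eRank = ((K + 2 : ℕ) : ℕ∞)) (hp : IsPaving M) {S : Finset α}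
    (hS : (S : Set α) ⊆ M.E) (hc : #S ≤ K + 1) : M.Indep S := by
  by_contra h
  have h1 : M.Dep S := ⟨h, hS⟩
  obtain ⟨C, hCS, hC⟩ := h1.exists_isCircuit_subset
  have h2 := hp C hC
  have h3 : C.encard ≤ (S : Set α).encard := Set.encard_le_encard hCS
  rw [Set.encard_coe_eq_coe_finsetCard] at h3
  rw [hr] at h2
  have h4 : ((K + 2 : ℕ) : ℕ∞) ≤ ((#S : ℕ) : ℕ∞) := h2.trans h3
  have h5 : K + 2 ≤ #S := by exact_mod_cast h4
  omega

omit [M.Finite] in
lemma isFlat_of_card (hr : M.eRank = ((K + 2 : ℕ) : ℕ∞)) (hp : IsPaving M) {S : Finset α}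
    (hS : (S : Set α) ⊆ M.E) (hc : #S ≤ K) : M.IsFlat S := by
  classical
  rw [Matroid.isFlat_iff_closure_eq]
  apply subset_antisymm
  · intro e he
    have hI := indep_of_card hr hp hS (by omega)
    rw [hI.mem_closure_iff] at he
    rcases he with h | h
    · exfalso
      have h1 : M.Indep ((insert e S : Finset α) : Set α) := by
        apply indep_of_card hr hp
        · rw [Finset.coe_insert]; exact h.subset_ground
        · exact (Finset.card_insert_le _ _).trans (by omega)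
      rw [Finset.coe_insert] at h1
      exact h.not_indep h1
    · exact h
  · exact M.subset_closure _ hS

lemma rk_of_card (hr : M.eRank = ((K + 2 : ℕ) : ℕ∞)) (hp : IsPaving M) {F : Flat M}
    (hc : #(fs F) ≤ K + 1) : rk M F = #(fs F) := by
  have h1 : M.Indep (fs F : Set α) := indep_of_card hr hp (by rw [coe_fs]; exact F.2.subset_ground) hc
  have h2 := h1.eRk_eq_encard
  rw [coe_fs, ← rk_cast, ← coe_fs, Set.encard_coe_eq_coe_finsetCard] at h2
  exact_mod_cast h2

lemma card_of_rk (hr : M.eRank = ((K + 2 : ℕ) : ℕ∞)) (hp : IsPaving M) {F : Flat M}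
    (hc : rk M F ≤ K) : #(fs F) = rk M F := by
  classical
  obtain ⟨I, hI⟩ := M.exists_isBasis F.1 F.2.subset_ground
  have hIfin : I.Finite := M.ground_finite.subset (hI.subset.trans F.2.subset_ground)
  have h1 : M.eRk F.1 = I.encard := hI.eRk_eq_encard
  have h2 : #(hIfin.toFinset) = rk M F := by
    have h3 : ((rk M F : ℕ) : ℕ∞) = ((#(hIfin.toFinset) : ℕ) : ℕ∞) := by
      rw [rk_cast, h1, ← Set.encard_coe_eq_coe_finsetCard, hIfin.coe_toFinset]
    exact_mod_cast h3.symm
  have h3 : M.IsFlat I := by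
    have h4 := isFlat_of_card hr hp (S := hIfin.toFinset)
      (by rw [hIfin.coe_toFinset]; exact hI.subset.trans F.2.subset_ground) (by omega)
    rwa [hIfin.coe_toFinset] at h4
  have h4 : F.1 = I := by
    rw [← F.2.closure, ← hI.closure_eq_closure, h3.closure]
  have h5 : fs F = hIfin.toFinset := by
    apply Finset.coe_injective
    rw [coe_fs, hIfin.coe_toFinset, h4]
  rw [h5, h2]

lemma card_le_iff (hr : M.eRank = ((K + 2 : ℕ) : ℕ∞)) (hp : IsPaving M) {F : Flat M} :
    #(fs F) ≤ K ↔ rk M F ≤ K := by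
  constructor
  · intro h; exact (rk_le_card F).trans h
  · intro h; rw [card_of_rk hr hp h]; exact h

lemma rk_top (hr : M.eRank = ((K + 2 : ℕ) : ℕ∞)) : rk M (⊤ : Flat M) = K + 2 := by
  have h : ((rk M (⊤ : Flat M) : ℕ) : ℕ∞) = ((K + 2 : ℕ) : ℕ∞) := by
    rw [rk_cast, ← hr]
    exact M.eRk_ground
  exact_mod_cast h

lemma rk_bot : rk M (⊥ : Flat M) = 0 := by
  have h : ((rk M (⊥ : Flat M) : ℕ) : ℕ∞) = ((0 : ℕ) : ℕ∞) := by
    rw [rk_cast]
    change M.eRk (M.closure ∅) = _
    rw [Matroid.eRk_closure_eq, Matroid.eRk_empty]; rfl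
  exact_mod_cast h

lemma fs_bot (hr : M.eRank = ((K + 2 : ℕ) : ℕ∞)) (hp : IsPaving M) : fs (⊥ : Flat M) = ∅ := by
  rw [← Finset.card_eq_zero, card_of_rk hr hp (by rw [rk_bot]; omega), rk_bot]

end Paving

end DualChow
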