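import Pool.Agent.H66.DC.Moebius

/-!
# The dual Chow polynomial of a paving matroid, II
-/

namespace DualChow

open Finset Polynomial IncidenceAlgebra

variable {α : Type*} {M : Matroid α} [M.Finite] {K : ℕ}

/-- The contribution of a hyperplane with `N` elements. -/
noncomputable def Phi (K N : ℕ) : ℤ[X] :=
  ((N - 1).choose K : ℤ[X]) + ∑ s ∈ range (K + 1),
    (N.choose s : ℤ[X]) * (hB (X : ℤ[X]) s * wq X (K + 2 - s) * ((N - s - 1).choose (K - s) : ℤ[X]))

lemma Phi_eq (K N : ℕ) (hN : K + 1 ≤ N) :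
    Phi K N = ∑ s ∈ range (K + 1), (∑ i ∈ range (s + 1),
      (((N - 1 - i).choose (K - i) : ℕ) : ℤ[X]) * ((K - i).choose (s - i) : ℤ[X]))
        * bb (X : ℤ[X]) (K + 2) s := by
  have h1 : ∀ s ∈ range (K + 1), (∑ i ∈ range (s + 1),
      (((N - 1 - i).choose (K - i) : ℕ) : ℤ[X]) * ((K - i).choose (s - i) : ℤ[X]))
        * bb (X : ℤ[X]) (K + 2) s
      = (if s = 0 then ((N - 1).choose K : ℤ[X]) else 0) + (N.choose s : ℤ[X]) *
        (hB (X : ℤ[X]) s * wq X (K + 2 - s) * ((N - s - 1).choose (K - s) : ℤ[X])) := by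
    intro s hs
    have h2 := choose_identity hN (by have := mem_range.1 hs; omega : s ≤ K)
    have h3 : (∑ i ∈ range (s + 1),
      (((N - 1 - i).choose (K - i) : ℕ) : ℤ[X]) * ((K - i).choose (s - i) : ℤ[X]))
        = ((N.choose s * (N - s - 1).choose (K - s) : ℕ) : ℤ[X]) := by
      rw [h2]; push_cast; rfl
    rw [h3]
    unfold bb
    by_cases h4 : s = 0
    · subst h4
      simp only [if_true, Nat.choose_zero_right, Nat.sub_zero, one_mul, Nat.cast_one]
      ring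
    · rw [if_neg h4, if_neg h4]
      push_cast
      ring
  rw [sum_congr rfl h1, sum_add_distrib]
  unfold Phi
  congr 1
  rw [sum_ite_eq' (range (K + 1)) 0]
  simp

open Classical in
/-- The dual Chow polynomial of a paving matroid. -/
lemma dualChow_paving (hr : M.eRank = ((K + 2 : ℕ) : ℕ∞)) (hp : IsPaving M) :
    dualChow M = ∑ H ∈ hyps M K, Phi K #(fs H) - Phi K #(fs (⊤ : Flat M)) := by
  have hbot : #(fs (⊥ : Flat M)) ≤ K := by rw [fs_bot hr hp]; simp
  rw [dualChow_eq, hr, ENat.toNat_natCast, chain_rec]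
  have e0 : (univ.filter fun F : Flat M => F < ⊤) = Ico ⊥ ⊤ := by
    ext F
    rw [mem_filter, mem_Ico]
    exact ⟨fun h => ⟨bot_le, h.2⟩, fun h => ⟨mem_univ _, h.2⟩⟩
  rw [e0, sum_Ico_top hr hp]
  -- hyperplanes do not contribute
  have e1 : ∑ H ∈ hyps M K with (⊥ : Flat M) ≤ H,
      (∑ᶠ m : ℕ, chainSum (uu M) (ww M) H m) * ww M H ⊤ = 0 := by
    apply sum_eq_zero
    intro H hH
    rw [mem_filter, mem_hyps] at hH
    unfold ww
    rw [rk_top hr, hH.1, show K + 2 - (K + 1) = 1 by omega, gap_eq, wq_one]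
    ring
  rw [e1, add_zero]
  -- small flats
  have e2 : ∀ F ∈ (Icc (⊥ : Flat M) ⊤).filter (fun F => #(fs F) ≤ K),
      (∑ᶠ m : ℕ, chainSum (uu M) (ww M) F m) * ww M F ⊤
        = (-1) ^ K * (∑ H ∈ hyps M K with F ≤ H, hB (X : ℤ[X]) #(fs F) * wq X (K + 2 - #(fs F)) *
            ((#(fs H) - #(fs F) - 1).choose (K - #(fs F)) : ℤ[X])
          - hB (X : ℤ[X]) #(fs F) * wq X (K + 2 - #(fs F)) *
            ((#(fs (⊤ : Flat M)) - #(fs F) - 1).choose (K - #(fs F)) : ℤ[X])) := by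
    intro F hF
    rw [mem_filter] at hF
    rw [chain_small hr hp _ F rfl hF.2]
    unfold ww
    rw [mu_top hr hp hF.2, rk_top hr, rk_of_card hr hp (by omega : #(fs F) ≤ K + 1), gap_eq,
      ← neg_one_mul_neg_one (R := ℤ[X]) hF.2]
    simp only [map_mul, map_pow, map_neg, map_one, map_sub, map_sum, map_natCast]
    rw [← mul_sum]
    ring
  rw [sum_congr rfl e2, ← mul_sum, sum_sub_distrib]
  -- Lemma: sums for a fixed flat
  have e3 : ∀ T : Flat M,
      ∑ F ∈ Icc (⊥ : Flat M) T with #(fs F) ≤ K, hB (X : ℤ[X]) #(fs F) * wq X (K + 2 - #(fs F)) *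
            ((#(fs T) - #(fs F) - 1).choose (K - #(fs F)) : ℤ[X])
        = Phi K #(fs T) - ((#(fs T) - 1).choose K : ℤ[X]) := by
    intro T
    have h1 := sum_small hr hp (bot_le : (⊥ : Flat M) ≤ T) hbot
      (fun i => hB (X : ℤ[X]) i * wq X (K + 2 - i) *
            ((#(fs T) - i - 1).choose (K - i) : ℤ[X]))
    rw [h1, fs_bot hr hp]
    simp only [card_empty, Nat.sub_zero, zero_add]
    unfold Phi
    ring
  have e4 : ∑ F ∈ Icc (⊥ : Flat M) ⊤ with #(fs F) ≤ K,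
      ∑ H ∈ hyps M K with F ≤ H, hB (X : ℤ[X]) #(fs F) * wq X (K + 2 - #(fs F)) *
            ((#(fs H) - #(fs F) - 1).choose (K - #(fs F)) : ℤ[X])
      = ∑ H ∈ hyps M K, (Phi K #(fs H) - ((#(fs H) - 1).choose K : ℤ[X])) := by
    have h1 : ∀ F : Flat M, ∑ H ∈ hyps M K with F ≤ H,
          hB (X : ℤ[X]) #(fs F) * wq X (K + 2 - #(fs F)) *
            ((#(fs H) - #(fs F) - 1).choose (K - #(fs F)) : ℤ[X])
        = ∑ H ∈ hyps M K, if F ≤ H then hB (X : ℤ[X]) #(fs F) * wq X (K + 2 - #(fs F)) *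
            ((#(fs H) - #(fs F) - 1).choose (K - #(fs F)) : ℤ[X]) else 0 := by
      intro F; rw [sum_filter]
    simp only [h1]
    rw [sum_comm]
    apply sum_congr rfl
    intro H _
    rw [← e3 H, ← sum_filter, filter_filter]
    apply sum_congr _ fun _ _ => rfl
    ext F
    rw [mem_filter, mem_filter, mem_Icc, mem_Icc]
    exact ⟨fun h => ⟨⟨bot_le, h.2.2⟩, h.2.1⟩, fun h => ⟨⟨bot_le, le_top⟩, h.2, h.1.2⟩⟩
  rw [e4, e3 ⊤]
  have e5 : uu M (⊤ : Flat M) = (-1) ^ K * (∑ H ∈ hyps M K, ((#(fs H) - 1).choose K : ℤ[X])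
      - ((#(fs (⊤ : Flat M)) - 1).choose K : ℤ[X])) := by
    unfold uu
    rw [mu_top hr hp hbot, fs_bot hr hp]
    have h2 : (hyps M K).filter (fun H => (⊥ : Flat M) ≤ H) = hyps M K := by
      rw [filter_eq_self]; intro H _; exact bot_le
    rw [h2]
    simp only [card_empty, Nat.sub_zero, map_mul, map_pow, map_neg, map_one, map_sub, map_sum,
      map_natCast]
  rw [e5, sum_sub_distrib]
  have h3 : (-1 : ℤ[X]) ^ (K + 2) * (-1) ^ K = 1 := by
    rw [← pow_add, show K + 2 + K = 2 * (K + 1) by ring, pow_mul]; simp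
  linear_combination (∑ H ∈ hyps M K, Phi K #(fs H) - Phi K #(fs (⊤ : Flat M))) * h3

/-- The coefficients in the basis. -/
noncomputable def cc (M : Matroid α) [M.Finite] (K i : ℕ) : ℤ :=
  ∑ H ∈ hyps M K, ((#(fs H) - 1 - i).choose (K - i) : ℤ)
    - ((#(fs (⊤ : Flat M)) - 1 - i).choose (K - i) : ℤ)

lemma dualChow_basis (hr : M.eRank = ((K + 2 : ℕ) : ℕ∞)) (hp : IsPaving M) :
    dualChow M = ∑ s ∈ range (K + 1), (∑ i ∈ range (s + 1),
      ((cc M K i : ℤ) : ℤ[X]) * ((K - i).choose (s - i) : ℤ[X])) * bb (X : ℤ[X]) (K + 2) s := by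
  classical
  rw [dualChow_paving hr hp]
  have h1 : ∀ H ∈ hyps M K, Phi K #(fs H) = ∑ s ∈ range (K + 1), (∑ i ∈ range (s + 1),
      (((#(fs H) - 1 - i).choose (K - i) : ℕ) : ℤ[X]) * ((K - i).choose (s - i) : ℤ[X]))
        * bb (X : ℤ[X]) (K + 2) s := by
    intro H hH
    apply Phi_eq
    rw [mem_hyps] at hH
    rw [← hH]
    exact rk_le_card H
  have h2 : K + 1 ≤ #(fs (⊤ : Flat M)) := by
    have := rk_le_card (⊤ : Flat M)
    rw [rk_top hr] at this
    omega
  rw [sum_congr rfl h1, Phi_eq K _ h2, sum_comm, ← sum_sub_distrib]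
  apply sum_congr rfl
  intro s _
  rw [← sum_mul, ← sub_mul]
  congr 1
  rw [sum_comm, ← sum_sub_distrib]
  apply sum_congr rfl
  intro i _
  rw [← sum_mul, ← sub_mul]
  congr 1
  unfold cc
  push_cast
  rfl

/-! ### Positivity of the coefficients -/

open Classical in
/-- Every `K + 1`-subset lies in exactly one hyperplane. -/
lemma hyps_count (hr : M.eRank = ((K + 2 : ℕ) : ℕ∞)) (hp : IsPaving M) {A : Finset α}
    (hAE : A ⊆ fs (⊤ : Flat M)) (hA : #A ≤ K + 1) :
    ∑ H ∈ hyps M K with A ⊆ fs H, ((#(fs H) - #A).choose (K + 1 - #A))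
      = (#(fs (⊤ : Flat M)) - #A).choose (K + 1 - #A) := by
  rw [← card_Icc_card_eq hAE (K + 1) hA]
  let f : Finset α → Flat M := fun Y => ⟨M.closure (Y : Set α), M.isFlat_closure _⟩
  have hE : (fs (⊤ : Flat M) : Set α) = M.E := coe_fs _
  have hYE : ∀ Y : Finset α, Y ⊆ fs (⊤ : Flat M) → (Y : Set α) ⊆ M.E := by
    intro Y hY
    rw [← hE]
    exact_mod_cast hY
  have hrkf : ∀ Y : Finset α, Y ⊆ fs (⊤ : Flat M) → #Y = K + 1 → rk M (f Y) = K + 1 := by
    intro Y hY hYc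
    have hI := indep_of_card hr hp (hYE Y hY) hYc.le
    have h1 : ((rk M (f Y) : ℕ) : ℕ∞) = ((K + 1 : ℕ) : ℕ∞) := by
      rw [rk_cast]
      change M.eRk (M.closure (Y : Set α)) = _
      rw [Matroid.eRk_closure_eq, hI.eRk_eq_encard, Set.encard_coe_eq_coe_finsetCard, hYc]
    exact_mod_cast h1
  have hYf : ∀ Y : Finset α, Y ⊆ fs (⊤ : Flat M) → Y ⊆ fs (f Y) := by
    intro Y hY
    have h1 := M.subset_closure (Y : Set α) (hYE Y hY)
    have h2 : (Y : Set α) ⊆ (fs (f Y) : Set α) := by rw [coe_fs]; exact h1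
    exact_mod_cast h2
  rw [card_eq_sum_card_fiberwise (f := f)
    (t := (hyps M K).filter fun H => A ⊆ fs H)]
  · apply sum_congr rfl
    intro H hH
    rw [mem_filter, mem_hyps] at hH
    rw [← card_Icc_card_eq hH.2 (K + 1) hA]
    congr 1
    ext Y
    rw [mem_filter, mem_filter, mem_filter, mem_Icc, mem_Icc]
    constructor
    · rintro ⟨⟨h1, h2⟩, h3⟩
      have hYE' : Y ⊆ fs (⊤ : Flat M) := h2.trans (fs_subset_iff.2 le_top)
      refine ⟨⟨⟨h1, hYE'⟩, h3⟩, ?_⟩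
      have h4 : f Y ≤ H := by
        change M.closure (Y : Set α) ⊆ H.1
        rw [← H.2.closure]
        apply M.closure_subset_closure
        rw [← coe_fs H]
        exact_mod_cast h2
      by_contra hne
      have h5 := rk_lt_of_lt (lt_of_le_of_ne h4 hne)
      rw [hrkf Y hYE' h3, hH.1] at h5
      omega
    · rintro ⟨⟨⟨h1, h2⟩, h3⟩, h4⟩
      refine ⟨⟨h1, ?_⟩, h3⟩
      rw [← h4]
      exact hYf Y h2
  · intro Y hY
    rw [mem_coe, mem_filter, mem_Icc] at hY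
    rw [mem_coe, mem_filter, mem_hyps]
    exact ⟨hrkf Y hY.1.2 hY.2, hY.1.1.trans (hYf Y hY.1.2)⟩

open Classical in
lemma cc_eq (hr : M.eRank = ((K + 2 : ℕ) : ℕ∞)) (hp : IsPaving M) {A : Finset α} {i : ℕ}
    (hi : i ≤ K) (hAE : A ⊆ fs (⊤ : Flat M)) (hA : #A = i + 1) :
    cc M K i = ∑ H ∈ hyps M K with ¬ A ⊆ fs H, ((#(fs H) - 1 - i).choose (K - i) : ℤ) := by
  have h1 := hyps_count hr hp hAE (by omega : #A ≤ K + 1)
  rw [hA] at h1
  have h2 : ∀ N : ℕ, (N - (i + 1)).choose (K + 1 - (i + 1)) = (N - 1 - i).choose (K - i) := by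
    intro N; congr 1 <;> omega
  simp only [h2] at h1
  unfold cc
  rw [← h1]
  rw [← sum_filter_add_sum_filter_not (hyps M K) (fun H => A ⊆ fs H)
    (fun H => ((#(fs H) - 1 - i).choose (K - i) : ℤ))]
  rw [Nat.cast_sum, add_sub_cancel_left]

lemma cc_nonneg (hr : M.eRank = ((K + 2 : ℕ) : ℕ∞)) (hp : IsPaving M) {i : ℕ} (hi : i ≤ K) :
    0 ≤ cc M K i := by
  classical
  have h1 : i + 1 ≤ #(fs (⊤ : Flat M)) := by
    have := rk_le_card (⊤ : Flat M)
    rw [rk_top hr] at this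
    omega
  obtain ⟨A, hAE, hA⟩ := exists_subset_card_eq h1
  rw [cc_eq hr hp hi hAE hA]
  exact sum_nonneg fun _ _ => Nat.cast_nonneg _

lemma cc_pos (hr : M.eRank = ((K + 2 : ℕ) : ℕ∞)) (hp : IsPaving M) : 0 < cc M K K := by
  classical
  obtain ⟨B, hB⟩ := M.exists_isBase
  have hBfin : B.Finite := M.ground_finite.subset hB.subset_ground
  have hBc : #hBfin.toFinset = K + 2 := by
    have h1 : ((#hBfin.toFinset : ℕ) : ℕ∞) = ((K + 2 : ℕ) : ℕ∞) := by
      rw [← Set.encard_coe_eq_coe_finsetCard, hBfin.coe_toFinset, hB.encard_eq_eRank, hr]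
    exact_mod_cast h1
  have hBE : hBfin.toFinset ⊆ fs (⊤ : Flat M) := by
    have h1 : (hBfin.toFinset : Set α) ⊆ (fs (⊤ : Flat M) : Set α) := by
      rw [hBfin.coe_toFinset, coe_fs]; exact hB.subset_ground
    exact_mod_cast h1
  obtain ⟨A, hAB, hA⟩ := exists_subset_card_eq (by omega : K + 1 ≤ #hBfin.toFinset)
  rw [cc_eq hr hp le_rfl (hAB.trans hBE) hA]
  -- an element of `A`
  obtain ⟨e, he⟩ : A.Nonempty := by rw [← card_pos]; omega
  have heB : e ∈ B := by
    have := hAB he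
    rwa [hBfin.mem_toFinset] at this
  -- the hyperplane spanned by `B \ {e}`
  let H : Flat M := ⟨M.closure (B \ {e}), M.isFlat_closure _⟩
  have hI : M.Indep (B \ {e}) := hB.indep.sdiff _
  have hH : rk M H = K + 1 := by
    have h1 : ((rk M H : ℕ) : ℕ∞) + 1 = ((K + 2 : ℕ) : ℕ∞) := by
      rw [rk_cast]
      change M.eRk (M.closure (B \ {e})) + 1 = _
      rw [Matroid.eRk_closure_eq, hI.eRk_eq_encard, Set.encard_sdiff_singleton_add_one heB,
        hB.encard_eq_eRank, hr]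
    have h2 : rk M H + 1 = K + 2 := by exact_mod_cast h1
    omega
  have heH : e ∉ fs H := by
    intro h
    have h1 : e ∈ (fs H : Set α) := h
    rw [coe_fs] at h1
    exact hB.indep.notMem_closure_sdiff_of_mem heB h1
  have hHmem : H ∈ (hyps M K).filter (fun H => ¬ A ⊆ fs H) := by
    rw [mem_filter, mem_hyps]
    exact ⟨hH, fun h => heH (h he)⟩
  apply sum_pos'
  · intro _ _; exact Nat.cast_nonneg _
  · refine ⟨H, hHmem, ?_⟩
    simp

/-! ### Evaluation -/

lemma map_wq {R S : Type*} [CommRing R] [CommRing S] (f : R →+* S) (x : R) (d : ℕ) :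
    f (wq x d) = wq (f x) d := by
  unfold wq; rw [map_sum]; simp

lemma map_hB {R S : Type*} [CommRing R] [CommRing S] (f : R →+* S) (x : R) (k : ℕ) :
    f (hB x k) = hB (f x) k := by
  induction k using Nat.strong_induction_on with
  | _ k ih =>
    rw [hB_eq, hB_eq, map_add, map_one, map_sum]
    congr 1
    apply sum_congr rfl
    intro j hj
    rw [map_mul, map_mul, map_natCast, map_wq, ih j (mem_range.1 hj)]

lemma map_bb {R S : Type*} [CommRing R] [CommRing S] (f : R →+* S) (x : R) (m j : ℕ) :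
    f (bb x m j) = bb (f x) m j := by
  unfold bb
  rw [map_add, map_mul, map_wq, map_hB]
  split_ifs <;> simp

/-- Real-rootedness for rank at least two. -/
theorem paving_rank_ge_two (hr : M.eRank = ((K + 2 : ℕ) : ℕ∞)) (hp : IsPaving M) (z : ℂ)
    (hz : aeval z (dualChow M) = 0) : z.im = 0 ∧ z.re ≤ 0 := by
  apply root_real K (fun i => (cc M K i : ℝ))
    (fun i hi => by exact_mod_cast cc_nonneg hr hp hi) (by exact_mod_cast cc_pos hr hp) z
  rw [dualChow_basis hr hp, map_sum] at hz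
  rw [← hz]
  apply sum_congr rfl
  intro s _
  rw [map_mul, map_sum]
  have h1 : (aeval z) (bb (X : ℤ[X]) (K + 2) s) = bb z (K + 2) s := by
    have := map_bb ((aeval z : ℤ[X] →ₐ[ℤ] ℂ) : ℤ[X] →+* ℂ) (X : ℤ[X]) (K + 2) s
    simpa using this
  rw [h1]
  congr 1
  apply sum_congr rfl
  intro i _
  rw [map_mul, map_intCast, map_natCast]
  simp

end DualChow
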